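import Pool.Agent.Lib.MP_f05b2f_co.C.KB

/-!
Corner pairs, case (A): all second levels are at least one.  The node with `K` first is good.
-/

namespace DKWF

open Finset

/-- the overlap of a union of slices -/
theorem Ov_split {ls : List ℕ} (h : Pos ls) (ζ w0 A0 n1 Y : ℕ) (f : ℕ → ℕ) :
    w0 * Ov ls ζ A0 + (∑ z ∈ range n1, Ov ls ζ (f z)) + Ov ls ζ Y ≤
      Ov ls ζ (w0 * A0 + (∑ z ∈ range n1, f z) + Y) := by
  have h1 := Ov_super h ζ (w0 * A0 + (∑ z ∈ range n1, f z)) Y
  have h2 := Ov_super h ζ (w0 * A0) (∑ z ∈ range n1, f z)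
  have h3 := Ov_mul h ζ w0 A0
  have h4 := Ov_sum h ζ f n1
  omega

theorem caseA {l c η j0 P0 : ℕ} {ls : List ℕ} (h : Pos (l :: ls)) (hcl : c + 1 ≤ l)
    (hη : 1 ≤ η) (hηl : η + 1 ≤ l) (hV : l ≤ ls.prod) (hj0 : 1 ≤ j0) (hj0c : j0 < c)
    (hP : P0 ≤ l) (hPg : l < P0 + η) {w0 n1 w2 n3 u : ℕ} {i j : ℕ → ℕ}
    (hi : ∀ z < n1, l < i z + η ∧ i z ≤ P0) (hj : ∀ z < n3, j0 ≤ j z ∧ j z < c)
    (hne : 1 ≤ n1 + w0) (hcond : P0 = l ∨ w0 ≤ u) {K S B D : ℕ}
    (hK : K = w0 + n1 + w2 + n3 + u)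
    (hS : S = w0 * (P0 * ls.prod) + (∑ z ∈ range n1, i z * ls.prod) + c * (w2 + n3))
    (hB : (B : ℤ) = w0 * (l * ls.prod) + (n1 + w2) * (l * ls.prod - η) +
      (∑ z ∈ range n3, (j z : ℤ)) * ls.prod + u * (j0 * ls.prod))
    (hD : (D : ℤ) = S - ∑ z ∈ range n1, ((i z : ℤ) + η - l) - ∑ z ∈ range n3, ((c : ℤ) - j z))
    (hE : (S : ℤ) - D ≤ Ov (l :: ls) ((l - j0) * ls.prod) S) : H (K :: l :: ls) S B ≤ D := by
  set V := ls.prod with hVd
  have h' := Pos.cons_iff.1 h
  have hp : (l :: ls).prod = l * V := List.prod_cons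
  have hVpos : 0 < V := h'.2.prod_pos
  have hc : 2 ≤ c := by omega
  have hη2 : η ≤ (l - j0) * V := by
    have : 1 * V ≤ (l - j0) * V := Nat.mul_le_mul_right _ (by omega)
    omega
  have hζ0N : (l - j0) * V + V ≤ l * V := by
    have e1 : (l - j0) * V + V = (l - j0 + 1) * V := by ring
    rw [e1]
    exact Nat.mul_le_mul_right _ (by omega)
  have hK0 : 0 < K := by omega
  -- bound of S
  have hSN : S ≤ K * (l :: ls).prod := by
    have s1 : w0 * (P0 * V) ≤ w0 * (l * V) :=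
      Nat.mul_le_mul_left _ (Nat.mul_le_mul_right _ hP)
    have s2 : ∑ z ∈ range n1, i z * V ≤ n1 * (l * V) :=
      sum_le_mul (fun z hz => Nat.mul_le_mul_right _ ((hi z hz).2.trans hP))
    have s3 : c * (w2 + n3) ≤ (w2 + n3) * (l * V) := by
      rw [mul_comm]
      apply Nat.mul_le_mul_left
      calc c ≤ l * 1 := by omega
        _ ≤ l * V := Nat.mul_le_mul_left _ hVpos
    rw [hS, hK, hp]
    have e1 : (w0 + n1 + w2 + n3 + u) * (l * V) =
      w0 * (l * V) + n1 * (l * V) + (w2 + n3) * (l * V) + u * (l * V) := by ring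
    rw [e1]
    have : 0 ≤ u * (l * V) := Nat.zero_le _
    omega
  -- sums
  obtain ⟨I, hI⟩ : ∃ I : ℤ, I = ∑ z ∈ range n1, (i z : ℤ) := ⟨_, rfl⟩
  obtain ⟨J, hJ⟩ : ∃ J : ℤ, J = ∑ z ∈ range n3, (j z : ℤ) := ⟨_, rfl⟩
  have hI' : ∑ z ∈ range n1, ((i z : ℤ) + η - l) = I + n1 * (η - l) := by
    rw [hI, sum_congr rfl (fun z _ => show (i z : ℤ) + η - l = i z + (η - l) by ring),
      sum_add_distrib, sum_const, card_range, nsmul_eq_mul]
  have hJ' : ∑ z ∈ range n3, ((c : ℤ) - j z) = n3 * c - J := by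
    rw [hJ, sum_sub_distrib, sum_const, card_range, nsmul_eq_mul]
  rw [hI', hJ'] at hD
  rw [← hJ] at hB
  have hIlow : (n1 : ℤ) * (l - η) ≤ I := by
    rw [hI]
    have : ∑ z ∈ range n1, ((l : ℤ) - η) ≤ ∑ z ∈ range n1, (i z : ℤ) := by
      apply sum_le_sum
      intro z hz
      have := (hi z (mem_range.1 hz)).1
      omega
    rwa [sum_const, card_range, nsmul_eq_mul] at this
  have hJup : J ≤ n3 * c := by
    rw [hJ]
    have : ∑ z ∈ range n3, (j z : ℤ) ≤ ∑ z ∈ range n3, (c : ℤ) := by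
      apply sum_le_sum
      intro z hz
      have := (hj z (mem_range.1 hz)).2
      omega
    rwa [sum_const, card_range, nsmul_eq_mul] at this
  -- n3 terms
  have hc1 : (1 : ℤ) ≤ c := by exact_mod_cast (by omega : 1 ≤ c)
  have hn3 : ((l - 1) * V - η - c + 1) * (n3 * c - J) ≤
      ((c : ℤ) - 1) * (n3 * (l * V - η) - J * V - (n3 * c - J)) := by
    have e1 : ((c : ℤ) - 1) * (n3 * (l * V - η) - J * V - (n3 * c - J)) -
        ((l - 1) * V - η - c + 1) * (n3 * c - J) = ((l - c) * V - η) * (J - n3) := by ring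
    have e2 : (n3 : ℤ) ≤ J := by
      rw [hJ]
      have : ∑ z ∈ range n3, (1 : ℤ) ≤ ∑ z ∈ range n3, (j z : ℤ) := by
        apply sum_le_sum
        intro z hz
        have := (hj z (mem_range.1 hz)).1
        omega
      rwa [sum_const, card_range, nsmul_eq_mul, mul_one] at this
    have e3 : (0 : ℤ) ≤ (l - c) * V - η := by
      have e4 : (1 : ℤ) * V ≤ (l - c) * V := by
        apply mul_le_mul_of_nonneg_right _ (by positivity)
        have : (c : ℤ) + 1 ≤ l := by exact_mod_cast hcl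
        linarith
      have e5 : (η : ℤ) ≤ V := by exact_mod_cast (by omega : η ≤ V)
      linarith
    have := mul_nonneg e3 (sub_nonneg.2 e2)
    linarith
  have hl1 : (1 : ℤ) ≤ l := by exact_mod_cast (by omega : 1 ≤ l)
  have hMlow : ((c : ℤ) - 1) * (l - 1) ≤ (l - 1) * V - η - c + 1 := by
    have e1 : (c : ℤ) + 1 ≤ l := by exact_mod_cast hcl
    have e2 : (l : ℤ) ≤ V := by exact_mod_cast hV
    have e3 : (η : ℤ) + 1 ≤ l := by exact_mod_cast hηl
    nlinarith
  have hM0 : (0 : ℤ) ≤ (l - 1) * V - η - c + 1 := by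
    have : (0 : ℤ) ≤ ((c : ℤ) - 1) * (l - 1) := mul_nonneg (by linarith) (by linarith)
    linarith
  -- the extra of the last levels
  have hu0 : (l - j0 : ℕ) = ((l : ℤ) - j0) := by
    push_cast [(by omega : j0 ≤ l)]; ring
  have hj0V : (η : ℤ) ≤ (l - j0) * V := by rw [← hu0]; exact_mod_cast hη2
  -- J terms at level η
  have hn3' : (n3 : ℤ) * c - J ≤ n3 * (l * V - η) - J * V := by
    have e0 : (0 : ℤ) ≤ ((l - 1) * V - η - c + 1) * (n3 * c - J) :=
      mul_nonneg hM0 (by linarith)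
    have e1 : (0 : ℤ) ≤ ((c : ℤ) - 1) * (n3 * (l * V - η) - J * V - (n3 * c - J)) := by linarith
    have e2 : (0 : ℤ) < (c : ℤ) - 1 := by
      have : (2 : ℤ) ≤ c := by exact_mod_cast hc
      linarith
    have := nonneg_of_mul_nonneg_right e1 e2
    linarith
  have hex : ∃ ζ, η ≤ ζ ∧ (S : ℤ) - D ≤ Ov (l :: ls) ζ S := ⟨_, hη2, hE⟩
  classical
  obtain ⟨ζ, hζ, hζ1, hζ2⟩ : ∃ ζ, (η ≤ ζ ∧ (S : ℤ) - D ≤ Ov (l :: ls) ζ S) ∧
      (∀ m < ζ, ¬ (η ≤ m ∧ (S : ℤ) - D ≤ Ov (l :: ls) m S)) ∧ ζ ≤ (l - j0) * V :=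
    ⟨Nat.find hex, Nat.find_spec hex, fun m hm => Nat.find_min hex hm,
      Nat.find_min' hex ⟨hη2, hE⟩⟩
  have hζN : ζ ≤ (l :: ls).prod := by rw [hp]; omega
  apply kfirst_test h hK0 hSN hζN hζ.2
  have hpz : (((l :: ls).prod : ℕ) : ℤ) = l * V := by rw [hp]; push_cast; ring
  rw [hpz, hB, hK]
  have hspl := Ov_split h ζ w0 (P0 * V) n1 (c * (w2 + n3)) (fun z => i z * V)
  rw [← hS] at hspl
  have hζle : (ζ : ℤ) ≤ (l - j0) * V := by rw [← hu0]; exact_mod_cast hζ2
  rcases Nat.lt_or_ge η ζ with hlt | hge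
  · obtain ⟨z, rfl⟩ : ∃ z, ζ = z + 1 := ⟨ζ - 1, by omega⟩
    have hz : η ≤ z := by omega
    have hfail : (Ov (l :: ls) z S : ℤ) + 1 ≤ S - D := by
      by_contra hcon
      exact hζ1 z (by omega) ⟨hz, by omega⟩
    obtain ⟨KB, hKB0, hKB1, hKB2⟩ := KB_exists h hc hcl hη hηl (hVd ▸ hV) hz (by
      rw [← hVd]; omega)
    rw [← hVd] at hKB1 hKB2
    have hspl' := Ov_split h z w0 (P0 * V) n1 (c * (w2 + n3)) (fun z => i z * V)
    rw [← hS] at hspl'
    have hsum : (n1 : ℤ) * KB ≤ ((c : ℤ) - 1) *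
        ((∑ y ∈ range n1, Ov (l :: ls) (z + 1) (i y * V) : ℕ) + n1 * l - I - n1 * (z + 1)) +
        ((l - 1) * V - η - c + 1) *
          ((∑ y ∈ range n1, Ov (l :: ls) z (i y * V) : ℕ) + n1 * (l - η) - I) := by
      have s1 : ∑ y ∈ range n1, KB ≤ ∑ y ∈ range n1, (((c : ℤ) - 1) *
          (Ov (l :: ls) (z + 1) (i y * V) + l - i y - (z + 1)) +
          ((l - 1) * V - η - c + 1) * (Ov (l :: ls) z (i y * V) + l - η - i y)) := by
        apply sum_le_sum
        intro y hy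
        exact hKB1 (i y) (hi y (mem_range.1 hy)).1 ((hi y (mem_range.1 hy)).2.trans hP)
      rw [sum_const, card_range, nsmul_eq_mul] at s1
      refine s1.trans (le_of_eq ?_)
      rw [sum_add_distrib, ← mul_sum, ← mul_sum]
      congr 2
      · have e1 : ∀ y ∈ range n1, (Ov (l :: ls) (z + 1) (i y * V) : ℤ) + l - i y - (z + 1) =
            Ov (l :: ls) (z + 1) (i y * V) + (l - (z + 1)) - i y := fun y _ => by ring
        rw [sum_congr rfl e1, sum_sub_distrib, sum_add_distrib, sum_const, card_range,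
          nsmul_eq_mul, ← hI]
        push_cast
        ring
      · have e1 : ∀ y ∈ range n1, (Ov (l :: ls) z (i y * V) : ℤ) + l - η - i y =
            Ov (l :: ls) z (i y * V) + (l - η) - i y := fun y _ => by ring
        rw [sum_congr rfl e1, sum_sub_distrib, sum_add_distrib, sum_const, card_range,
          nsmul_eq_mul, ← hI]
        push_cast
        ring
    -- the slices of the first kind with full complement
    have hw0 : (w0 : ℤ) * KB ≤ ((c : ℤ) - 1) * (w0 * Ov (l :: ls) (z + 1) (P0 * V) -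
        w0 * (z + 1) + u * ((l - j0) * V - (z + 1))) +
        ((l - 1) * V - η - c + 1) * (w0 * Ov (l :: ls) z (P0 * V)) := by
      have k1 := hKB1 P0 hPg hP
      have hzl : (0 : ℤ) ≤ (l - j0) * V - (z + 1) := by
        push_cast at hζle
        linarith
      have hw : (0 : ℤ) ≤ w0 := Int.natCast_nonneg _
      rcases hcond with rfl | hwu
      · have o1 := Ov_prod h (ζ := z + 1) hζN
        have o2 := Ov_prod h (ζ := z) (by omega)
        rw [hp] at o1 o2
        rw [o1, o2] at k1 ⊢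
        have m1 := mul_le_mul_of_nonneg_left k1 hw
        have m2 : (0 : ℤ) ≤ ((c : ℤ) - 1) * (u * ((P0 - j0) * V - (z + 1))) :=
          mul_nonneg (by linarith) (mul_nonneg (Int.natCast_nonneg _) hzl)
        have m3 : (0 : ℤ) ≤ w0 * (((P0 : ℤ) - 1) * V - η - c + 1) * η :=
          mul_nonneg (mul_nonneg hw hM0) (Int.natCast_nonneg _)
        push_cast at m1 ⊢
        linarith
      · have m1 := mul_le_mul_of_nonneg_left k1 hw
        have m2 : (w0 : ℤ) * ((l - j0) * V - (z + 1)) ≤ u * ((l - j0) * V - (z + 1)) :=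
          mul_le_mul_of_nonneg_right (by exact_mod_cast hwu) hzl
        have m3 := mul_le_mul_of_nonneg_left m2 (by linarith : (0 : ℤ) ≤ (c : ℤ) - 1)
        -- difference
        have m4 : (0 : ℤ) ≤ ((c : ℤ) - 1) * (((l - j0) * V - (z + 1)) - (l - P0)) +
            ((l - 1) * V - η - c + 1) * (P0 + η - l) := by
          have n1 : (1 : ℤ) ≤ P0 + η - l := by omega
          have n2 : ((l - 1) * V - η - c + 1) * (1 : ℤ) ≤
            ((l - 1) * V - η - c + 1) * (P0 + η - l) := mul_le_mul_of_nonneg_left n1 hM0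
          have n3 : (0 : ℤ) ≤ ((c : ℤ) - 1) * ((l - j0) * V - (z + 1)) :=
            mul_nonneg (by linarith) hzl
          have n4 : ((c : ℤ) - 1) * (l - P0) ≤ (c - 1) * (l - 1) := by
            apply mul_le_mul_of_nonneg_left _ (by linarith)
            have : (1 : ℤ) ≤ P0 := by
              have : 1 ≤ P0 := by omega
              exact_mod_cast this
            linarith
          linarith
        have m5 := mul_nonneg hw m4
        linarith
    -- the slices with first level c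
    have hY := hKB2 (c * (w2 + n3))
    have hcpos : (0 : ℤ) < c := by linarith
    have hY' : (0 : ℤ) ≤ ((c : ℤ) - 1) * (Ov (l :: ls) (z + 1) (c * (w2 + n3)) -
        (z + 1 - η) * (w2 + n3)) +
        ((l - 1) * V - η - c + 1) * (Ov (l :: ls) z (c * (w2 + n3)) + 1) + KB := by
      apply nonneg_of_mul_nonneg_right _ hcpos
      push_cast at hY
      linarith
    -- conclusion
    have hX1 : (w0 : ℤ) * Ov (l :: ls) z (P0 * V) +
        (∑ y ∈ range n1, Ov (l :: ls) z (i y * V) : ℕ) + Ov (l :: ls) z (c * (w2 + n3)) + 1 ≤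
        I + n1 * (η - l) + (n3 * c - J) := by
      have : ((w0 * Ov (l :: ls) z (P0 * V) + (∑ y ∈ range n1, Ov (l :: ls) z (i y * V)) +
        Ov (l :: ls) z (c * (w2 + n3)) : ℕ) : ℤ) ≤ Ov (l :: ls) z S := by exact_mod_cast hspl'
      rw [Nat.cast_add, Nat.cast_add, Nat.cast_mul] at this
      linarith
    have hX1' := mul_le_mul_of_nonneg_left hX1 hM0
    have hfin : (0 : ℤ) ≤ ((c : ℤ) - 1) * ((w0 : ℤ) * Ov (l :: ls) (z + 1) (P0 * V) +
        (∑ y ∈ range n1, Ov (l :: ls) (z + 1) (i y * V) : ℕ) +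
        Ov (l :: ls) (z + 1) (c * (w2 + n3)) - (I + n1 * (η - l) + (n3 * c - J) +
        (w0 * (z + 1) + (n1 + w2) * (z + 1 - η) - (n3 * (l * V - (z + 1)) - J * V) -
          u * ((l - j0) * V - (z + 1))))) := by
      have q1 : (0 : ℤ) ≤ KB * (n1 + w0 - 1) := by
        apply mul_nonneg hKB0
        have : (1 : ℤ) ≤ n1 + w0 := by exact_mod_cast hne
        linarith
      linarith
    have hfin' := nonneg_of_mul_nonneg_right hfin (by
      have : (2 : ℤ) ≤ c := by exact_mod_cast hc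
      linarith)
    have hspl2 : ((w0 * Ov (l :: ls) (z + 1) (P0 * V) +
        (∑ y ∈ range n1, Ov (l :: ls) (z + 1) (i y * V)) +
        Ov (l :: ls) (z + 1) (c * (w2 + n3)) : ℕ) : ℤ) ≤ Ov (l :: ls) (z + 1) S := by
      exact_mod_cast hspl
    rw [Nat.cast_add, Nat.cast_add, Nat.cast_mul] at hspl2
    push_cast at hfin' hspl2 ⊢
    linarith
  · have hζη : ζ = η := by omega
    subst hζη
    rcases hcond with rfl | hwu
    · have o1 := Ov_prod h (ζ := ζ) hζN
      rw [hp] at o1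
      rw [o1] at hspl
      have hA : (I : ℤ) + n1 * (ζ - P0) ≤
          (∑ y ∈ range n1, Ov (P0 :: ls) ζ (i y * V) : ℕ) := by
        rw [hI, Nat.cast_sum]
        have : ∑ y ∈ range n1, ((i y : ℤ) + (ζ - P0)) ≤
            ∑ y ∈ range n1, (Ov (P0 :: ls) ζ (i y * V) : ℤ) := by
          apply sum_le_sum
          intro y hy
          have r1 := Ov_rows h (t := 0) (i := ζ) (hi y (mem_range.1 hy)).2 (by omega) (by
            rw [Nat.zero_mul, Nat.zero_add, ← hp]; exact hζN)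
          simp only [Nat.mul_zero, Nat.zero_mul, Nat.zero_add] at r1
          rw [← hVd] at r1
          have := (hi y (mem_range.1 hy)).1
          omega
        rwa [sum_add_distrib, sum_const, card_range, nsmul_eq_mul] at this
      have hspl2 : ((w0 * ζ + (∑ y ∈ range n1, Ov (P0 :: ls) ζ (i y * V)) +
          Ov (P0 :: ls) ζ (c * (w2 + n3)) : ℕ) : ℤ) ≤ Ov (P0 :: ls) ζ S := by
        exact_mod_cast hspl
      rw [Nat.cast_add, Nat.cast_add, Nat.cast_mul] at hspl2
      have q1 : (0 : ℤ) ≤ Ov (P0 :: ls) ζ (c * (w2 + n3)) := Int.natCast_nonneg _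
      have q2 : (0 : ℤ) ≤ u * ((P0 - j0) * V - ζ) :=
        mul_nonneg (Int.natCast_nonneg _) (by linarith)
      push_cast
      linarith
    · have q2 : (w0 : ℤ) * ((l - j0) * V - ζ) ≤ u * ((l - j0) * V - ζ) :=
        mul_le_mul_of_nonneg_right (by exact_mod_cast hwu) (by linarith)
      have q3 : (w0 : ℤ) * (2 * ζ) ≤ w0 * ((l - j0) * V) := by
        apply mul_le_mul_of_nonneg_left _ (Int.natCast_nonneg _)
        have e4 : (2 : ℤ) * V ≤ (l - j0) * V := by
          apply mul_le_mul_of_nonneg_right _ (by positivity)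
          have : (j0 : ℤ) + 2 ≤ l := by exact_mod_cast (by omega : j0 + 2 ≤ l)
          linarith
        have e5 : (ζ : ℤ) ≤ V := by exact_mod_cast (by omega : ζ ≤ V)
        linarith
      have q4 := hζ.2
      have q5 : (0 : ℤ) ≤ n3 * c - J := by linarith
      push_cast
      linarith

end DKWF
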