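import Pool.Agent.Lib.MP_f05b2f_co.C.IneqB

/-!
The gain of a slice with intermediate second level is nonnegative.
-/

namespace DKWF

set_option maxRecDepth 20000

theorem DBj_1a (n k2 q b a ν : ℕ) :
    0 ≤ DBj (1 + (n + k2) + q + 1 + b) (1 + (n + k2) + q + 1 + b + 1 + a) (1 + (n + k2) + q + 1 + b + 1 + a + ν)
      (1 + n) (1 + (n + k2)) (1 + (n + k2) + q) := by
  unfold DBj AB
  ring_nf
  positivity

theorem DBj_1b (κ n2 q2 b a ν : ℕ) :
    0 ≤ DBj (1 + κ + (n2 + q2) + 1 + b) (1 + κ + (n2 + q2) + 1 + b + 1 + a) (1 + κ + (n2 + q2) + 1 + b + 1 + a + ν)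
      (1 + (κ + n2)) (1 + κ) (1 + κ + (n2 + q2)) := by
  unfold DBj AB
  ring_nf
  positivity

theorem DBj_1c (κ q n2 b2 a ν : ℕ) :
    0 ≤ DBj (1 + κ + q + 1 + (n2 + b2)) (1 + κ + q + 1 + (n2 + b2) + 1 + a) (1 + κ + q + 1 + (n2 + b2) + 1 + a + ν)
      (1 + (κ + q + n2)) (1 + κ) (1 + κ + q) := by
  unfold DBj AB
  ring_nf
  positivity

theorem DBj_1d (κ q b a ν : ℕ) :
    0 ≤ DBj (1 + κ + q + 1 + b) (1 + κ + q + 1 + b + 1 + a) (1 + κ + q + 1 + b + 1 + a + ν)
      (1 + (κ + q + b + 1)) (1 + κ) (1 + κ + q) := by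
  unfold DBj AB
  ring_nf
  positivity

theorem DBj_1e (κ q b r a ν : ℕ) :
    0 ≤ DBj (1 + κ + q + 1 + b) (1 + κ + q + 1 + b + 1 + r + 1 + a) (1 + κ + q + 1 + b + 1 + r + 1 + a + ν)
      (1 + κ + q + 1 + b + 1 + r) (1 + κ) (1 + κ + q) := by
  unfold DBj AB
  ring_nf
  positivity

theorem DBj_2a (n k2 q p a ν : ℕ) :
    0 ≤ DBj (1 + (n + k2) + 1 + q + p) (1 + (n + k2) + 1 + q + p + 1 + a) (1 + (n + k2) + 1 + q + p + 1 + a + ν)
      (1 + n) (1 + (n + k2) + 1 + q) (1 + (n + k2)) := by
  unfold DBj AB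
  ring_nf
  positivity

theorem DBj_2b (j n2 q2 p a ν : ℕ) :
    0 ≤ DBj (1 + j + 1 + (n2 + q2) + p) (1 + j + 1 + (n2 + q2) + p + 1 + a) (1 + j + 1 + (n2 + q2) + p + 1 + a + ν)
      (1 + (j + n2)) (1 + j + 1 + (n2 + q2)) (1 + j) := by
  unfold DBj AB
  ring_nf
  positivity

theorem DBj_2c (j q n2 p2 a ν : ℕ) :
    0 ≤ DBj (1 + j + 1 + q + (n2 + p2)) (1 + j + 1 + q + (n2 + p2) + 1 + a) (1 + j + 1 + q + (n2 + p2) + 1 + a + ν)
      (1 + (j + q + n2)) (1 + j + 1 + q) (1 + j) := by
  unfold DBj AB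
  ring_nf
  positivity

theorem DBj_2d (j q p a ν : ℕ) :
    0 ≤ DBj (1 + j + 1 + q + p) (1 + j + 1 + q + p + 1 + a) (1 + j + 1 + q + p + 1 + a + ν)
      (1 + (j + q + p + 1)) (1 + j + 1 + q) (1 + j) := by
  unfold DBj AB
  ring_nf
  positivity

theorem DBj_2e (j q p r a ν : ℕ) :
    0 ≤ DBj (1 + j + 1 + q + p) (1 + j + 1 + q + p + 1 + r + 1 + a) (1 + j + 1 + q + p + 1 + r + 1 + a + ν)
      (1 + j + 1 + q + p + 1 + r) (1 + j + 1 + q) (1 + j) := by
  unfold DBj AB
  ring_nf
  positivity

theorem DBj_nonneg {c η h l V j : ℕ} (h1 : 1 ≤ h) (hhc : h ≤ c) (hcl : c + 1 ≤ l) (hη : 1 ≤ η)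
    (hηl : η + 1 ≤ l) (hV : l ≤ V) (hj : 1 ≤ j) (hjc : j + 1 ≤ c) : 0 ≤ DBj c l V η h j := by
  obtain ⟨ν, rfl⟩ := Nat.exists_eq_add_of_le hV
  rcases le_total h j with h2 | h2
  · obtain ⟨κ, rfl⟩ := Nat.exists_eq_add_of_le h1
    obtain ⟨q, rfl⟩ := Nat.exists_eq_add_of_le h2
    obtain ⟨b, rfl⟩ := Nat.exists_eq_add_of_le hjc
    rcases Nat.lt_or_ge (1 + κ + q + 1 + b) η with h3 | h3
    · obtain ⟨r, rfl⟩ : ∃ r, η = 1 + κ + q + 1 + b + 1 + r :=
        ⟨η - (1 + κ + q + 1 + b + 1), by omega⟩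
      obtain ⟨a, rfl⟩ := Nat.exists_eq_add_of_le hηl
      have := DBj_1e κ q b r a ν
      push_cast
      exact this
    · obtain ⟨n, rfl⟩ := Nat.exists_eq_add_of_le hη
      obtain ⟨a, rfl⟩ := Nat.exists_eq_add_of_le hcl
      rcases le_total n κ with h4 | h4
      · obtain ⟨k2, rfl⟩ := Nat.exists_eq_add_of_le h4
        have := DBj_1a n k2 q b a ν
        push_cast
        exact this
      · obtain ⟨n2, rfl⟩ := Nat.exists_eq_add_of_le h4
        rcases le_total n2 q with h5 | h5
        · obtain ⟨q2, rfl⟩ := Nat.exists_eq_add_of_le h5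
          have := DBj_1b κ n2 q2 b a ν
          push_cast
          exact this
        · obtain ⟨n3, rfl⟩ := Nat.exists_eq_add_of_le h5
          rcases Nat.lt_or_ge b n3 with h6 | h6
          · have e : n3 = b + 1 := by omega
            subst e
            have := DBj_1d κ q b a ν
            have e : (1 + (κ + (q + (b + 1))) : ℤ) = 1 + (κ + q + b + 1) := by ring
            push_cast
            rw [e]
            exact this
          · obtain ⟨b2, rfl⟩ := Nat.exists_eq_add_of_le h6
            have := DBj_1c κ q n3 b2 a ν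
            have e : (1 + (κ + (q + n3)) : ℤ) = 1 + (κ + q + n3) := by ring
            push_cast
            rw [e]
            exact this
  · rcases Nat.lt_or_ge j h with h2' | h2'
    · obtain ⟨j, rfl⟩ := Nat.exists_eq_add_of_le hj
      obtain ⟨q, rfl⟩ := Nat.exists_eq_add_of_le h2'
      obtain ⟨p, rfl⟩ := Nat.exists_eq_add_of_le hhc
      rcases Nat.lt_or_ge (1 + j + 1 + q + p) η with h3 | h3
      · obtain ⟨r, rfl⟩ : ∃ r, η = 1 + j + 1 + q + p + 1 + r :=
          ⟨η - (1 + j + 1 + q + p + 1), by omega⟩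
        obtain ⟨a, rfl⟩ := Nat.exists_eq_add_of_le hηl
        have := DBj_2e j q p r a ν
        push_cast
        exact this
      · obtain ⟨n, rfl⟩ := Nat.exists_eq_add_of_le hη
        obtain ⟨a, rfl⟩ := Nat.exists_eq_add_of_le hcl
        rcases le_total n j with h4 | h4
        · obtain ⟨k2, rfl⟩ := Nat.exists_eq_add_of_le h4
          have := DBj_2a n k2 q p a ν
          push_cast
          exact this
        · obtain ⟨n2, rfl⟩ := Nat.exists_eq_add_of_le h4
          rcases le_total n2 q with h5 | h5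
          · obtain ⟨q2, rfl⟩ := Nat.exists_eq_add_of_le h5
            have := DBj_2b j n2 q2 p a ν
            push_cast
            exact this
          · obtain ⟨n3, rfl⟩ := Nat.exists_eq_add_of_le h5
            rcases Nat.lt_or_ge p n3 with h6 | h6
            · have e : n3 = p + 1 := by omega
              subst e
              have := DBj_2d j q p a ν
              have e : (1 + (j + (q + (p + 1))) : ℤ) = 1 + (j + q + p + 1) := by ring
              push_cast
              rw [e]
              exact this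
            · obtain ⟨p2, rfl⟩ := Nat.exists_eq_add_of_le h6
              have := DBj_2c j q n3 p2 a ν
              have e : (1 + (j + (q + n3)) : ℤ) = 1 + (j + q + n3) := by ring
              push_cast
              rw [e]
              exact this
    · -- h = j
      have e : h = j := by omega
      subst e
      obtain ⟨κ, rfl⟩ := Nat.exists_eq_add_of_le h1
      obtain ⟨b, rfl⟩ := Nat.exists_eq_add_of_le hjc
      rcases Nat.lt_or_ge (1 + κ + 1 + b) η with h3 | h3
      · obtain ⟨r, rfl⟩ : ∃ r, η = 1 + κ + 1 + b + 1 + r :=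
          ⟨η - (1 + κ + 1 + b + 1), by omega⟩
        obtain ⟨a, rfl⟩ := Nat.exists_eq_add_of_le hηl
        have := DBj_1e κ 0 b r a ν
        push_cast at this ⊢
        simp only [add_zero] at this
        exact this
      · obtain ⟨n, rfl⟩ := Nat.exists_eq_add_of_le hη
        obtain ⟨a, rfl⟩ := Nat.exists_eq_add_of_le hcl
        rcases le_total n κ with h4 | h4
        · obtain ⟨k2, rfl⟩ := Nat.exists_eq_add_of_le h4
          have := DBj_1a n k2 0 b a ν
          push_cast at this ⊢
          simp only [add_zero] at this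
          exact this
        · obtain ⟨n3, rfl⟩ := Nat.exists_eq_add_of_le h4
          rcases Nat.lt_or_ge b n3 with h6 | h6
          · have e : n3 = b + 1 := by omega
            subst e
            have := DBj_1d κ 0 b a ν
            have e : (1 + (κ + (b + 1)) : ℤ) = 1 + (κ + b + 1) := by ring
            push_cast at this ⊢
            simp only [add_zero] at this
            rw [e]
            exact this
          · obtain ⟨b2, rfl⟩ := Nat.exists_eq_add_of_le h6
            have := DBj_1c κ 0 n3 b2 a ν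
            push_cast at this ⊢
            simp only [add_zero] at this
            exact this

end DKWF
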