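import Pool.Agent.Lib.MP_f05b2f_co.C.CaseA
import Pool.Agent.Lib.MP_f05b2f_co.C.IneqBj

/-!
Corner pairs, case (B): full slices against empty slices.  The node with `K` first is good.
-/

namespace DKWF

open Finset

theorem Ov_mono_level (ls : List ℕ) {ζ ζ' : ℕ} (h : ζ ≤ ζ') (Y : ℕ) :
    Ov ls ζ Y ≤ Ov ls ζ' Y := by
  have h1 := Ov_add_H ls ζ Y
  have h2 := Ov_add_H ls ζ' Y
  have h3 := H_mono_left ls.reverse (Nat.sub_le_sub_left h ls.prod) Y
  omega

/-- the expression `SB` for all `Y` -/
theorem SB_all {l c η z : ℕ} {ls : List ℕ} (h : Pos (l :: ls)) (hcl : c + 1 ≤ l)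
    (hη : 1 ≤ η) (hηl : η + 1 ≤ l) (hV : l ≤ ls.prod) (hz : η ≤ z) (hzc : z + 1 ≤ η + c)
    (Y : ℕ) :
    0 ≤ (z : ℤ) * (c * Ov (l :: ls) (z + 1) Y - (z + 1 - η) * Y) +
      AB c l ls.prod η (z + 1 - η) * Ov (l :: ls) z Y +
      (DB c l ls.prod η (z + 1 - η) + AB c l ls.prod η (z + 1 - η)) := by
  set V := ls.prod with hVd
  have h' := Pos.cons_iff.1 h
  have hp : (l :: ls).prod = l * V := List.prod_cons
  have hVpos : 0 < V := h'.2.prod_pos
  have hlV : 2 * l ≤ l * V := by
    rw [mul_comm 2 l]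
    exact Nat.mul_le_mul_left _ (by omega)
  have hdig : ∀ X < (l :: ls).prod, ∃ f s, f + 1 ≤ l ∧ s + 1 ≤ V ∧ X = f * V + s := by
    intro X hX
    refine ⟨X / V, X % V, ?_, Nat.mod_lt _ hVpos, ?_⟩
    · have : X / V < l := by
        rw [Nat.div_lt_iff_lt_mul hVpos, ← hp]; exact hX
      omega
    · rw [mul_comm]; exact (Nat.div_add_mod X V).symm
  obtain ⟨hh, hhz⟩ : ∃ hh, z + 1 = η + hh := Nat.exists_eq_add_of_le (by omega)
  have e1 : (z : ℤ) + 1 - η = hh := by
    have : (z : ℤ) + 1 = η + hh := by exact_mod_cast hhz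
    linarith
  have e2 : (η : ℤ) + hh - 1 = z := by linarith
  refine all_of_period h (z := z) (by rw [hp]; omega) (c1 := (z : ℤ)) (c := c)
    (h' := (z : ℤ) + 1 - η) ?_ ?_ Y
  · rw [hp, AB]
    push_cast
    rw [e1]
    have : (z : ℤ) + 1 = η + hh := by linarith
    have e3 : (z : ℤ) * (c * (z + 1) - hh * (l * V)) + (hh * (l * V) - (η + hh) * c) * z = 0 := by
      rw [this]; ring
    linarith
  · intro X hX
    obtain ⟨f, s, hf, hs, rfl⟩ := hdig X hX
    rw [e1]
    have hsb : 0 ≤ SB c l V η hh (Ov (l :: ls) z (f * V + s) : ℤ)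
        (Ov (l :: ls) (z + 1) (f * V + s) : ℤ) ((f * V + s : ℕ) : ℤ) := by
      rcases Nat.lt_or_ge z l with hzl | hzl
      · have key := SB_low (c := c) (h := hh) (by omega) (by omega) hcl hη hηl hV (by omega) hf hs
        have r1 := Ov_lower h (t := 0) (i := z + 1) (f := f) (s := s) hf (by omega) (by omega)
          (by rw [Nat.zero_mul, Nat.zero_add, ← hVd]; omega)
        have r2 := Ov_lower h (t := 0) (i := z) (f := f) (s := s) hf (by omega) (by omega)
          (by rw [Nat.zero_mul, Nat.zero_add, ← hVd]; omega)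
        simp only [Nat.mul_zero, Nat.zero_mul, Nat.zero_add] at r1 r2
        rw [← hVd] at r1 r2
        have f1 : η + hh - 1 = z := by omega
        rw [f1, ← hhz] at key
        refine SB_mono (by omega) (by omega) hcl hη hηl hV ?_ ?_ (le_refl _) key
        · have : f + z - l ≤ Ov (l :: ls) z (f * V + s) := by omega
          exact_mod_cast this
        · have : f + (z + 1) - l ≤ Ov (l :: ls) (z + 1) (f * V + s) := by omega
          exact_mod_cast this
      · obtain ⟨i, rfl⟩ := Nat.exists_eq_add_of_le hzl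
        have key := SB_high (c := c) (h := hh) (i := i) (by omega) (by omega) hcl hη hηl hV
          (by omega) hf hs
        have r1 := Ov_lower h (t := 1) (i := i + 1) (f := f) (s := s) hf (by omega) (by omega)
          (by rw [Nat.one_mul, ← hVd]; omega)
        have r2 := Ov_lower h (t := 1) (i := i) (f := f) (s := s) hf (by omega) (by omega)
          (by rw [Nat.one_mul, ← hVd]; omega)
        simp only [Nat.mul_one, Nat.one_mul] at r1 r2
        rw [← hVd] at r1 r2
        refine SB_mono (by omega) (by omega) hcl hη hηl hV ?_ ?_ (le_refl _) key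
        · have : f + (f + i - l) ≤ Ov (l :: ls) (l + i) (f * V + s) := by omega
          exact_mod_cast this
        · have e4 : l + i + 1 = l + (i + 1) := by ring
          rw [e4]
          have : f + (f + (i + 1) - l) ≤ Ov (l :: ls) (l + (i + 1)) (f * V + s) := by omega
          exact_mod_cast this
    unfold SB at hsb
    rw [e2] at hsb
    linarith

/-- the core of case (B): `h = z + 1 - η ≤ c` -/
theorem coreB {l c η z : ℕ} {ls : List ℕ} (h : Pos (l :: ls)) (hc : 1 ≤ c) (hcl : c + 1 ≤ l)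
    (hη : 1 ≤ η) (hηl : η + 1 ≤ l) (hV : l ≤ ls.prod) (hz : η ≤ z) (hzc : z + 1 ≤ η + c)
    {w1 w3 d W : ℕ} {J : ℤ} (hw3 : 1 ≤ w3) (hw : w3 ≤ w1)
    (hJ : AB c l ls.prod η (z + 1 - η) * (d * c - J) ≤
      z * c * (d * (l * ls.prod - η) - J * ls.prod - (d * c - J)))
    (hX1 : (w1 : ℤ) * (z - η) + Ov (l :: ls) z (c * W) + 1 ≤ w3 * c + (d * c - J)) :
    (0 : ℤ) ≤ Ov (l :: ls) (z + 1) (c * W) - (z + 1 - η) * W + w3 * (l * ls.prod - η - c) +
      (d * (l * ls.prod - η) - J * ls.prod - (d * c - J)) := by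
  have hsb := SB_all h hcl hη hηl hV hz hzc (c * W)
  have hA := AB_nonneg (c := c) (h := z + 1 - η) (by omega) (by omega) hcl hη hηl hV
  have hD := DB_nonneg (c := c) (h := z + 1 - η) (by omega) (by omega) hcl hη hηl hV
  have e1 : ((z + 1 - η : ℕ) : ℤ) = z + 1 - η := by
    push_cast [(by omega : η ≤ z + 1)]; ring
  rw [e1] at hA hD
  have e2 : DB c l ls.prod η (z + 1 - η) =
      z * c * (l * ls.prod - η - c) - AB c l ls.prod η (z + 1 - η) * (c - (z + 1 - η) + 1) := by
    unfold DB
    ring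
  generalize AB c l ls.prod η (z + 1 - η) = A at *
  generalize DB c l ls.prod η (z + 1 - η) = Dl at *
  generalize (ls.prod : ℤ) = V at *
  have hzη : (0 : ℤ) ≤ (z : ℤ) - η := by
    have : (η : ℤ) ≤ z := by exact_mod_cast hz
    linarith
  have m1 : (0 : ℤ) ≤ ((w3 : ℤ) - 1) * Dl := mul_nonneg (by
    have : (1 : ℤ) ≤ w3 := by exact_mod_cast hw3
    linarith) hD
  have m2 : (0 : ℤ) ≤ A * (((w1 : ℤ) - w3) * (z - η)) := mul_nonneg hA (mul_nonneg (by
    have : (w3 : ℤ) ≤ w1 := by exact_mod_cast hw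
    linarith) hzη)
  have m3 := mul_le_mul_of_nonneg_left hX1 hA
  have hzc0 : (0 : ℤ) < z * c := by
    have h1 : 0 < z * c := Nat.mul_pos (by omega) hc
    exact_mod_cast h1
  apply nonneg_of_mul_nonneg_right _ hzc0
  push_cast at hsb
  have m4 : (w3 : ℤ) * Dl = w3 * (z * c * (l * V - η - c) - A * (c - (z + 1 - η) + 1)) := by
    rw [e2]
  linarith

theorem caseB {l c η : ℕ} {ls : List ℕ} (h : Pos (l :: ls)) (hc : 1 ≤ c) (hcl : c + 1 ≤ l)
    (hη : 1 ≤ η) (hηl : η + 1 ≤ l) (hV : l ≤ ls.prod) {w0 w1 e w2 w3 d u : ℕ} {i j : ℕ → ℕ}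
    (hi : ∀ z < e, l < i z + η ∧ i z ≤ l) (hj : ∀ z < d, 1 ≤ j z ∧ j z < c)
    (hw3 : 1 ≤ w3) (hw : w3 ≤ w1) (hwd : w3 + d ≤ w1 + e) {K S B D : ℕ}
    (hK : K = w0 + w1 + e + w2 + w3 + d + u)
    (hS : S = (w0 + w1) * (l * ls.prod) + (∑ z ∈ range e, i z * ls.prod) + c * (w2 + w3 + d))
    (hB : (B : ℤ) = w0 * (l * ls.prod) + (w1 + e + w2) * (l * ls.prod - η) +
      (∑ z ∈ range d, (j z : ℤ)) * ls.prod)
    (hD : (D : ℤ) = S - w1 * η - (∑ z ∈ range e, ((i z : ℤ) + η - l)) - w3 * c -
      ∑ z ∈ range d, ((c : ℤ) - j z)) : H (K :: l :: ls) S B ≤ D := by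
  set V := ls.prod with hVd
  have h' := Pos.cons_iff.1 h
  have hp : (l :: ls).prod = l * V := List.prod_cons
  have hVpos : 0 < V := h'.2.prod_pos
  have hη2 : η ≤ (l - 1) * V := by
    have : 1 * V ≤ (l - 1) * V := Nat.mul_le_mul_right _ (by omega)
    omega
  have hζ0N : (l - 1) * V + V = l * V := by
    have e1 : (l - 1) * V + V = (l - 1 + 1) * V := by ring
    rw [e1]
    congr 1
    omega
  have hK0 : 0 < K := by omega
  have hSN : S ≤ K * (l :: ls).prod := by
    have s2 : ∑ z ∈ range e, i z * V ≤ e * (l * V) :=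
      sum_le_mul (fun z hz => Nat.mul_le_mul_right _ (hi z hz).2)
    have s3 : c * (w2 + w3 + d) ≤ (w2 + w3 + d) * (l * V) := by
      rw [mul_comm]
      apply Nat.mul_le_mul_left
      calc c ≤ l * 1 := by omega
        _ ≤ l * V := Nat.mul_le_mul_left _ hVpos
    rw [hS, hK, hp]
    have e1 : (w0 + w1 + e + w2 + w3 + d + u) * (l * V) =
      (w0 + w1) * (l * V) + e * (l * V) + (w2 + w3 + d) * (l * V) + u * (l * V) := by ring
    rw [e1]
    have : 0 ≤ u * (l * V) := Nat.zero_le _
    omega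
  -- sums
  obtain ⟨I, hI⟩ : ∃ I : ℤ, I = ∑ z ∈ range e, (i z : ℤ) := ⟨_, rfl⟩
  obtain ⟨J, hJ⟩ : ∃ J : ℤ, J = ∑ z ∈ range d, (j z : ℤ) := ⟨_, rfl⟩
  have hI' : ∑ z ∈ range e, ((i z : ℤ) + η - l) = I + e * (η - l) := by
    rw [hI, sum_congr rfl (fun z _ => show (i z : ℤ) + η - l = i z + (η - l) by ring),
      sum_add_distrib, sum_const, card_range, nsmul_eq_mul]
  have hJ' : ∑ z ∈ range d, ((c : ℤ) - j z) = d * c - J := by
    rw [hJ, sum_sub_distrib, sum_const, card_range, nsmul_eq_mul]
  rw [hI', hJ'] at hD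
  rw [← hJ] at hB
  have hJup : J ≤ d * c := by
    rw [hJ]
    have : ∑ z ∈ range d, (j z : ℤ) ≤ ∑ z ∈ range d, (c : ℤ) := by
      apply sum_le_sum
      intro z hz
      have := (hj z (mem_range.1 hz)).2
      omega
    rwa [sum_const, card_range, nsmul_eq_mul] at this
  have hJlow : (d : ℤ) ≤ J := by
    rw [hJ]
    have : ∑ z ∈ range d, (1 : ℤ) ≤ ∑ z ∈ range d, (j z : ℤ) := by
      apply sum_le_sum
      intro z hz
      have := (hj z (mem_range.1 hz)).1
      omega
    rwa [sum_const, card_range, nsmul_eq_mul, mul_one] at this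
  have hc1 : (1 : ℤ) ≤ c := by exact_mod_cast hc
  have hl1 : (1 : ℤ) ≤ l := by exact_mod_cast (by omega : 1 ≤ l)
  have hcl' : (c : ℤ) + 1 ≤ l := by exact_mod_cast hcl
  have hηl' : (η : ℤ) + 1 ≤ l := by exact_mod_cast hηl
  have hη' : (1 : ℤ) ≤ η := by exact_mod_cast hη
  have hV' : (l : ℤ) ≤ V := by exact_mod_cast hV
  -- products with V
  have hlcV : (V : ℤ) ≤ (l - c) * V := by
    have : (1 : ℤ) * V ≤ (l - c) * V :=
      mul_le_mul_of_nonneg_right (by linarith) (by positivity)
    linarith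
  have hl1V : ((c : ℤ)) * (l - 1) ≤ (l - 1) * V := by
    have : (l - 1) * (c : ℤ) ≤ (l - 1) * V :=
      mul_le_mul_of_nonneg_left (by linarith) (by linarith)
    linarith
  have hMlow : ((c : ℤ) - 1) * (l - 1) ≤ (l - 1) * V - η - c + 1 := by
    have : (l - 1) * ((c : ℤ) + 1) ≤ (l - 1) * V :=
      mul_le_mul_of_nonneg_left (by linarith) (by linarith)
    linarith
  have hM0 : (0 : ℤ) ≤ (l - 1) * V - η - c + 1 := by
    have : (0 : ℤ) ≤ ((c : ℤ) - 1) * (l - 1) := mul_nonneg (by linarith) (by linarith)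
    linarith
  have hE0 : (c : ℤ) ≤ (l - 1) * V - η := by
    have : (0 : ℤ) ≤ ((c : ℤ) - 1) * (l - 1) := mul_nonneg (by linarith) (by linarith)
    have h2 : (l - 1) * ((c : ℤ) + 1) ≤ (l - 1) * V :=
      mul_le_mul_of_nonneg_left (by linarith) (by linarith)
    linarith
  have hpz : (((l :: ls).prod : ℕ) : ℤ) = l * V := by rw [hp]; push_cast; ring
  -- d terms
  have hd : ((l - 1) * V - η - c + 1) * (d * c - J) ≤
      ((c : ℤ) - 1) * (d * (l * V - η) - J * V - (d * c - J)) := by
    have e1 : ((c : ℤ) - 1) * (d * (l * V - η) - J * V - (d * c - J)) -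
        ((l - 1) * V - η - c + 1) * (d * c - J) = ((l - c) * V - η) * (J - d) := by ring
    have e3 : (0 : ℤ) ≤ (l - c) * V - η := by linarith
    have := mul_nonneg e3 (sub_nonneg.2 hJlow)
    linarith
  have hd' : (d : ℤ) * c - J ≤ d * (l * V - η) - J * V := by
    rcases Nat.eq_zero_or_pos d with hd0 | hd0
    · subst hd0
      simp only [range_zero, sum_empty] at hJ
      subst hJ
      simp
    · have e0 : (0 : ℤ) ≤ ((l - 1) * V - η - c + 1) * (d * c - J) :=
        mul_nonneg hM0 (by linarith)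
      have e1 : (0 : ℤ) ≤ ((c : ℤ) - 1) * (d * (l * V - η) - J * V - (d * c - J)) := by linarith
      have e2 : (0 : ℤ) < (c : ℤ) - 1 := by
        have := hj 0 hd0
        have : (2 : ℤ) ≤ c := by exact_mod_cast (by omega : 2 ≤ c)
        linarith
      have := nonneg_of_mul_nonneg_right e1 e2
      linarith
  have hw' : (w3 : ℤ) ≤ w1 := by exact_mod_cast hw
  have hwd' : (w3 : ℤ) + d ≤ w1 + e := by exact_mod_cast hwd
  have hl10 : ((l - 1 : ℕ) : ℤ) = l - 1 := by push_cast [(by omega : 1 ≤ l)]; ring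
  -- existence
  have hE : (S : ℤ) - D ≤ Ov (l :: ls) ((l - 1) * V) S := by
    have hspl := Ov_split h ((l - 1) * V) (w0 + w1) (l * V) e (c * (w2 + w3 + d))
      (fun z => i z * V)
    rw [← hS] at hspl
    have o1 := Ov_prod h (ζ := (l - 1) * V) (by rw [hp]; omega)
    rw [hp] at o1
    rw [o1] at hspl
    have hA : (I : ℤ) + e * (η - l) + e * c ≤
        (∑ y ∈ range e, Ov (l :: ls) ((l - 1) * V) (i y * V) : ℕ) := by
      rw [hI, Nat.cast_sum]
      have : ∑ y ∈ range e, ((i y : ℤ) + (η - l + c)) ≤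
          ∑ y ∈ range e, (Ov (l :: ls) ((l - 1) * V) (i y * V) : ℤ) := by
        apply sum_le_sum
        intro y hy
        have hm := Ov_mono_level (l :: ls) (Nat.mul_le_mul_left (l - 1) hV) (i y * V)
        have r1 := Ov_rows h (t := l - 1) (i := 0) (hi y (mem_range.1 hy)).2 (by omega) (by
          rw [add_zero, ← hVd]
          exact Nat.mul_le_mul (by omega) hV)
        rw [← hVd] at r1
        simp only [add_zero] at r1
        have h1 := (hi y (mem_range.1 hy)).1
        have h2 : i y + (l - 2) ≤ i y * (l - 1) := by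
          have : i y * (l - 1) = i y * (l - 2) + i y := by
            have e3 : l - 1 = l - 2 + 1 := by omega
            rw [e3, Nat.mul_succ]
          have h3 : 1 * (l - 2) ≤ i y * (l - 2) := Nat.mul_le_mul_right _ (by omega)
          omega
        omega
      rw [sum_add_distrib, sum_const, card_range, nsmul_eq_mul] at this
      linarith
    have hspl2 : (((w0 + w1) * ((l - 1) * V) +
        (∑ y ∈ range e, Ov (l :: ls) ((l - 1) * V) (i y * V)) +
        Ov (l :: ls) ((l - 1) * V) (c * (w2 + w3 + d)) : ℕ) : ℤ) ≤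
        Ov (l :: ls) ((l - 1) * V) S := by
      exact_mod_cast hspl
    rw [Nat.cast_add, Nat.cast_add, Nat.cast_mul, Nat.cast_add, Nat.cast_mul, hl10] at hspl2
    have q1 : (0 : ℤ) ≤ Ov (l :: ls) ((l - 1) * V) (c * (w2 + w3 + d)) := Int.natCast_nonneg _
    have q2 : (0 : ℤ) ≤ w0 * ((l - 1) * V) :=
      mul_nonneg (Int.natCast_nonneg _) (by linarith)
    have q3 : (w1 : ℤ) * c ≤ w1 * ((l - 1) * V - η) :=
      mul_le_mul_of_nonneg_left hE0 (Int.natCast_nonneg _)
    have q4 : ((w3 : ℤ) + d) * c ≤ (w1 + e) * c :=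
      mul_le_mul_of_nonneg_right hwd' (by linarith)
    have q5 : (0 : ℤ) ≤ J := (Int.natCast_nonneg d).trans hJlow
    linarith
  have hex : ∃ ζ, η ≤ ζ ∧ (S : ℤ) - D ≤ Ov (l :: ls) ζ S := ⟨_, hη2, hE⟩
  classical
  obtain ⟨ζ, hζ, hζ1, hζ2⟩ : ∃ ζ, (η ≤ ζ ∧ (S : ℤ) - D ≤ Ov (l :: ls) ζ S) ∧
      (∀ m < ζ, ¬ (η ≤ m ∧ (S : ℤ) - D ≤ Ov (l :: ls) m S)) ∧ ζ ≤ (l - 1) * V :=
    ⟨Nat.find hex, Nat.find_spec hex, fun m hm => Nat.find_min hex hm,
      Nat.find_min' hex ⟨hη2, hE⟩⟩
  have hζN : ζ ≤ (l :: ls).prod := by rw [hp]; omega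
  apply kfirst_test h hK0 hSN hζN hζ.2
  rw [hpz, hB, hK]
  have hspl := Ov_split h ζ (w0 + w1) (l * V) e (c * (w2 + w3 + d)) (fun z => i z * V)
  rw [← hS] at hspl
  have o1 := Ov_prod h (ζ := ζ) hζN
  rw [hp] at o1
  rw [o1] at hspl
  have hspl2 : (((w0 + w1) * ζ + (∑ y ∈ range e, Ov (l :: ls) ζ (i y * V)) +
      Ov (l :: ls) ζ (c * (w2 + w3 + d)) : ℕ) : ℤ) ≤ Ov (l :: ls) ζ S := by
    exact_mod_cast hspl
  rw [Nat.cast_add, Nat.cast_add, Nat.cast_mul, Nat.cast_add] at hspl2
  have hζle : (ζ : ℤ) ≤ (l - 1) * V := by rw [← hl10]; exact_mod_cast hζ2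
  have hu : (0 : ℤ) ≤ u * (l * V - ζ) := mul_nonneg (Int.natCast_nonneg _) (by linarith)
  rcases Nat.lt_or_ge η ζ with hlt | hge
  · obtain ⟨z, rfl⟩ : ∃ z, ζ = z + 1 := ⟨ζ - 1, by omega⟩
    have hz : η ≤ z := by omega
    have hz' : (η : ℤ) ≤ z := by exact_mod_cast hz
    have hfail : (Ov (l :: ls) z S : ℤ) + 1 ≤ S - D := by
      by_contra hcon
      exact hζ1 z (by omega) ⟨hz, by omega⟩
    have hspl' := Ov_split h z (w0 + w1) (l * V) e (c * (w2 + w3 + d)) (fun z => i z * V)
    rw [← hS] at hspl'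
    have o2 := Ov_prod h (ζ := z) (by omega)
    rw [hp] at o2
    rw [o2] at hspl'
    have hspl2' : (((w0 + w1) * z + (∑ y ∈ range e, Ov (l :: ls) z (i y * V)) +
        Ov (l :: ls) z (c * (w2 + w3 + d)) : ℕ) : ℤ) ≤ Ov (l :: ls) z S := by
      exact_mod_cast hspl'
    rw [Nat.cast_add, Nat.cast_add, Nat.cast_mul, Nat.cast_add] at hspl2'
    have hw0z : (0 : ℤ) ≤ w0 * z := mul_nonneg (Int.natCast_nonneg _) (Int.natCast_nonneg _)
    -- rows at level z
    have hbeta : (I : ℤ) + e * (η - l) ≤ (∑ y ∈ range e, Ov (l :: ls) z (i y * V) : ℕ) := by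
      rw [hI, Nat.cast_sum]
      have : ∑ y ∈ range e, ((i y : ℤ) + (η - l)) ≤
          ∑ y ∈ range e, (Ov (l :: ls) z (i y * V) : ℤ) := by
        apply sum_le_sum
        intro y hy
        have hm := Ov_mono_level (l :: ls) hz (i y * V)
        have r1 := Ov_rows h (t := 0) (i := η) (hi y (mem_range.1 hy)).2 (by omega) (by
          rw [Nat.zero_mul, Nat.zero_add, ← hVd]; omega)
        simp only [Nat.mul_zero, Nat.zero_mul, Nat.zero_add] at r1
        rw [← hVd] at r1
        have := (hi y (mem_range.1 hy)).1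
        omega
      rwa [sum_add_distrib, sum_const, card_range, nsmul_eq_mul] at this
    rcases Nat.lt_or_ge (η + c) (z + 1) with hhc | hhc
    · -- h > c
      have hhc' : (η : ℤ) + c + 1 ≤ z + 1 := by exact_mod_cast hhc
      have hov0 : (0 : ℤ) ≤ Ov (l :: ls) z (c * (w2 + w3 + d)) := Int.natCast_nonneg _
      have hX0 : (w1 : ℤ) * (z - η) + 1 ≤ w3 * c + (d * c - J) := by linarith
      have hwz : (w1 : ℤ) * c ≤ w1 * (z - η) :=
        mul_le_mul_of_nonneg_left (by linarith) (Int.natCast_nonneg _)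
      have hw3c : (w3 : ℤ) * c ≤ w1 * c := mul_le_mul_of_nonneg_right hw' (by linarith)
      have hd1 : 1 ≤ d := by
        by_contra hcon
        have hd0 : d = 0 := by omega
        subst hd0
        simp only [range_zero, sum_empty] at hJ
        subst hJ
        push_cast at hX0
        linarith
      have he1 : 1 ≤ e := by
        by_contra hcon
        have he0 : e = 0 := by omega
        subst he0
        have q4 : ((w3 : ℤ) + d) * c ≤ (w1 + (0 : ℕ)) * c :=
          mul_le_mul_of_nonneg_right hwd' (by linarith)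
        have : (1 : ℤ) ≤ d := by exact_mod_cast hd1
        push_cast at q4
        linarith
      have hc2 : 2 ≤ c := by
        have := hj 0 hd1
        omega
      obtain ⟨KB, hKB0, hKB1, hKB2⟩ := KB_exists h hc2 hcl hη hηl (hVd ▸ hV) hz (by
        rw [← hVd]; omega)
      rw [← hVd] at hKB1 hKB2
      have hsum : (e : ℤ) * KB ≤ ((c : ℤ) - 1) *
          ((∑ y ∈ range e, Ov (l :: ls) (z + 1) (i y * V) : ℕ) + e * l - I - e * (z + 1)) +
          ((l - 1) * V - η - c + 1) *
            ((∑ y ∈ range e, Ov (l :: ls) z (i y * V) : ℕ) + e * (l - η) - I) := by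
        have s1 : ∑ y ∈ range e, KB ≤ ∑ y ∈ range e, (((c : ℤ) - 1) *
            (Ov (l :: ls) (z + 1) (i y * V) + l - i y - (z + 1)) +
            ((l - 1) * V - η - c + 1) * (Ov (l :: ls) z (i y * V) + l - η - i y)) := by
          apply sum_le_sum
          intro y hy
          exact hKB1 (i y) (hi y (mem_range.1 hy)).1 (hi y (mem_range.1 hy)).2
        rw [sum_const, card_range, nsmul_eq_mul] at s1
        refine s1.trans (le_of_eq ?_)
        rw [sum_add_distrib, ← mul_sum, ← mul_sum]
        congr 2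
        · have e1 : ∀ y ∈ range e, (Ov (l :: ls) (z + 1) (i y * V) : ℤ) + l - i y - (z + 1) =
              Ov (l :: ls) (z + 1) (i y * V) + (l - (z + 1)) - i y := fun y _ => by ring
          rw [sum_congr rfl e1, sum_sub_distrib, sum_add_distrib, sum_const, card_range,
            nsmul_eq_mul, ← hI]
          push_cast
          ring
        · have e1 : ∀ y ∈ range e, (Ov (l :: ls) z (i y * V) : ℤ) + l - η - i y =
              Ov (l :: ls) z (i y * V) + (l - η) - i y := fun y _ => by ring
          rw [sum_congr rfl e1, sum_sub_distrib, sum_add_distrib, sum_const, card_range,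
            nsmul_eq_mul, ← hI]
          push_cast
          ring
      have hY := hKB2 (c * (w2 + w3 + d))
      have hcpos : (0 : ℤ) < c := by linarith
      have hY' : (0 : ℤ) ≤ ((c : ℤ) - 1) * (Ov (l :: ls) (z + 1) (c * (w2 + w3 + d)) -
          (z + 1 - η) * (w2 + w3 + d)) +
          ((l - 1) * V - η - c + 1) * (Ov (l :: ls) z (c * (w2 + w3 + d)) + 1) + KB := by
        apply nonneg_of_mul_nonneg_right _ hcpos
        push_cast at hY
        linarith
      have hX1 : (w1 : ℤ) * (z - η) +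
          ((∑ y ∈ range e, Ov (l :: ls) z (i y * V) : ℕ) - (I + e * (η - l))) +
          Ov (l :: ls) z (c * (w2 + w3 + d)) + 1 ≤ w3 * c + (d * c - J) := by
        linarith
      have hX1' := mul_le_mul_of_nonneg_left hX1 hM0
      have hmid : (0 : ℤ) ≤ (w3 : ℤ) * (((c : ℤ) - 1) * (l * V - η - c) +
          ((l - 1) * V - η - c + 1) * (z - η - c)) + ((l - 1) * V - η - c + 1) *
          ((w1 - w3) * (z - η)) := by
        have t1 : (0 : ℤ) ≤ ((c : ℤ) - 1) * (l * V - η - c) :=
          mul_nonneg (by linarith) (by linarith)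
        have t2 : (0 : ℤ) ≤ ((l - 1) * V - η - c + 1) * (z - η - c) :=
          mul_nonneg hM0 (by linarith)
        have t3 : (0 : ℤ) ≤ ((l - 1) * V - η - c + 1) * ((w1 - w3) * (z - η)) :=
          mul_nonneg hM0 (mul_nonneg (by linarith) (by linarith))
        have t4 := mul_nonneg (Int.natCast_nonneg w3) (add_nonneg t1 t2)
        linarith
      have hfin : (0 : ℤ) ≤ ((c : ℤ) - 1) *
          ((∑ y ∈ range e, Ov (l :: ls) (z + 1) (i y * V) : ℕ) + e * l - I - e * (z + 1) +
          Ov (l :: ls) (z + 1) (c * (w2 + w3 + d)) - (z + 1 - η) * (w2 + w3 + d) +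
          w3 * (l * V - η - c) + (d * (l * V - η) - J * V - (d * c - J))) := by
        have q1 : (0 : ℤ) ≤ KB * (e - 1) := by
          apply mul_nonneg hKB0
          have : (1 : ℤ) ≤ e := by exact_mod_cast he1
          linarith
        linarith
      have hfin' := nonneg_of_mul_nonneg_right hfin (by
        have : (2 : ℤ) ≤ c := by exact_mod_cast hc2
        linarith)
      push_cast at hfin' hspl2 hu ⊢
      linarith
    · -- h ≤ c
      have hJ2 : AB c l V η (z + 1 - η) * (d * c - J) ≤
          z * c * (d * (l * V - η) - J * V - (d * c - J)) := by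
        have s1 : ∑ y ∈ range d, (0 : ℤ) ≤
            ∑ y ∈ range d, DBj c l V η (z + 1 - η) (j y) := by
          apply sum_le_sum
          intro y hy
          have hh := hj y (mem_range.1 hy)
          have := DBj_nonneg (c := c) (h := z + 1 - η) (j := j y) (by omega) (by omega) hcl hη
            hηl hV hh.1 hh.2
          have e1 : ((z + 1 - η : ℕ) : ℤ) = z + 1 - η := by
            push_cast [(by omega : η ≤ z + 1)]; ring
          rwa [e1] at this
        have e2 : ∀ y ∈ range d, DBj c l V η (z + 1 - η) (j y) =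
            (z * c * (l * V - η - c) - AB c l V η (z + 1 - η) * c) -
            (j y : ℤ) * (z * c * (V - 1) - AB c l V η (z + 1 - η)) := by
          intro y _
          unfold DBj
          ring
        rw [sum_congr rfl e2, sum_sub_distrib, ← sum_mul, ← hJ, sum_const, sum_const,
          card_range, nsmul_eq_mul, nsmul_eq_mul, mul_zero] at s1
        linarith
      rcases Nat.lt_or_ge z l with hzl | hzl
      · -- rows exact
        have hal : (I : ℤ) + e * (z + 1 - l) ≤
            (∑ y ∈ range e, Ov (l :: ls) (z + 1) (i y * V) : ℕ) := by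
          rw [hI, Nat.cast_sum]
          have : ∑ y ∈ range e, ((i y : ℤ) + (z + 1 - l)) ≤
              ∑ y ∈ range e, (Ov (l :: ls) (z + 1) (i y * V) : ℤ) := by
            apply sum_le_sum
            intro y hy
            have r1 := Ov_rows h (t := 0) (i := z + 1) (hi y (mem_range.1 hy)).2 (by omega) (by
              rw [Nat.zero_mul, Nat.zero_add, ← hVd]; omega)
            simp only [Nat.mul_zero, Nat.zero_mul, Nat.zero_add] at r1
            rw [← hVd] at r1
            have := (hi y (mem_range.1 hy)).1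
            omega
          rwa [sum_add_distrib, sum_const, card_range, nsmul_eq_mul] at this
        have hcore := coreB h hc hcl hη hηl (hVd ▸ hV) hz hhc (w1 := w1) (w3 := w3) (d := d)
          (W := w2 + w3 + d) (J := J) hw3 hw (hVd ▸ hJ2) (by linarith)
        rw [← hVd] at hcore
        push_cast at hcore hspl2 hu hal ⊢
        linarith
      · -- rows dominated
        have hsplit2 : ∀ ζ', l ≤ ζ' → ζ' ≤ (l :: ls).prod →
            ((w0 : ℤ) + w1) * ζ' + (I + e * (η - l)) +
              Ov (l :: ls) ζ' (c * (w2 + w3 + d + e)) ≤ Ov (l :: ls) ζ' S := by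
          intro ζ' h1 h2
          have hs1 : ∀ y ∈ range e, i y * V = (i y * V - c) + c := by
            intro y hy
            have h3 : 1 * V ≤ i y * V :=
              Nat.mul_le_mul_right _ (by have := (hi y (mem_range.1 hy)).1; omega)
            omega
          have hs2 : S = (w0 + w1) * (l * V) + (∑ z ∈ range e, (i z * V - c)) +
              c * (w2 + w3 + d + e) := by
            rw [hS, sum_congr rfl hs1, sum_add_distrib, sum_const, card_range, smul_eq_mul]
            ring
          have hs3 := Ov_split h ζ' (w0 + w1) (l * V) e (c * (w2 + w3 + d + e))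
            (fun z => i z * V - c)
          rw [← hs2] at hs3
          have o3 := Ov_prod h h2
          rw [hp] at o3
          rw [o3] at hs3
          have hr : (I : ℤ) + e * (η - l) ≤
              (∑ y ∈ range e, Ov (l :: ls) ζ' (i y * V - c) : ℕ) := by
            rw [hI, Nat.cast_sum]
            have : ∑ y ∈ range e, ((i y : ℤ) + (η - l)) ≤
                ∑ y ∈ range e, (Ov (l :: ls) ζ' (i y * V - c) : ℤ) := by
              apply sum_le_sum
              intro y hy
              have hiy := hi y (mem_range.1 hy)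
              have r1 := Ov_rows h (t := 1) (i := 0) (f := i y - 1) (by omega) (by omega) (by
                rw [Nat.one_mul, add_zero, ← hVd]; omega)
              simp only [Nat.mul_one, Nat.one_mul, add_zero] at r1
              rw [← hVd] at r1
              have r2 := Ov_mono_level (l :: ls) h1 ((i y - 1) * V)
              have r3 := Ov_mono_right h ζ' (Y := (i y - 1) * V) (Y' := i y * V - c) (by
                have e3 : i y * V = (i y - 1) * V + V := by
                  have : i y = i y - 1 + 1 := by omega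
                  conv_lhs => rw [this]
                  ring
                omega)
              omega
            rwa [sum_add_distrib, sum_const, card_range, nsmul_eq_mul] at this
          have hs4 : (((w0 + w1) * ζ' + (∑ y ∈ range e, Ov (l :: ls) ζ' (i y * V - c)) +
              Ov (l :: ls) ζ' (c * (w2 + w3 + d + e)) : ℕ) : ℤ) ≤ Ov (l :: ls) ζ' S := by
            exact_mod_cast hs3
          rw [Nat.cast_add, Nat.cast_add, Nat.cast_mul, Nat.cast_add] at hs4
          linarith
        have hd1 := hsplit2 z hzl (by omega)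
        have hd2 := hsplit2 (z + 1) (by omega) hζN
        have hcore := coreB h hc hcl hη hηl (hVd ▸ hV) hz hhc (w1 := w1) (w3 := w3) (d := d)
          (W := w2 + w3 + d + e) (J := J) hw3 hw (hVd ▸ hJ2) (by linarith)
        rw [← hVd] at hcore
        push_cast at hcore hd2 hu ⊢
        linarith
  · have hζη : ζ = η := by omega
    subst hζη
    have hA : (I : ℤ) + e * (ζ - l) ≤
        (∑ y ∈ range e, Ov (l :: ls) ζ (i y * V) : ℕ) := by
      rw [hI, Nat.cast_sum]
      have : ∑ y ∈ range e, ((i y : ℤ) + (ζ - l)) ≤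
          ∑ y ∈ range e, (Ov (l :: ls) ζ (i y * V) : ℤ) := by
        apply sum_le_sum
        intro y hy
        have r1 := Ov_rows h (t := 0) (i := ζ) (hi y (mem_range.1 hy)).2 (by omega) (by
          rw [Nat.zero_mul, Nat.zero_add, ← hVd]; omega)
        simp only [Nat.mul_zero, Nat.zero_mul, Nat.zero_add] at r1
        rw [← hVd] at r1
        have := (hi y (mem_range.1 hy)).1
        omega
      rwa [sum_add_distrib, sum_const, card_range, nsmul_eq_mul] at this
    have q1 : (0 : ℤ) ≤ Ov (l :: ls) ζ (c * (w2 + w3 + d)) := Int.natCast_nonneg _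
    have q3 : (0 : ℤ) ≤ w3 * (l * V - ζ - c) :=
      mul_nonneg (Int.natCast_nonneg _) (by linarith)
    push_cast
    linarith

end DKWF
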