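import Pool.Agent.Lib.MP_f05b2f_co.C.CaseB

/-!
Values of the slices of corner pairs, mirror images, and the corner theorem for equal sides.
-/

namespace DKWF

open Finset

/-- the first `c ≤ l` elements of the first order against whole last blocks -/
theorem H_first {l : ℕ} {l1 : List ℕ} (h1 : Pos l1) (hl : 0 < l) {c j : ℕ} (hc : c ≤ l)
    (hj : j ≤ l) : H (l1 ++ [l]) c (j * l1.prod) = min c j := by
  have hb : j * l1.prod ≤ l1.prod * l := by
    rw [mul_comm l1.prod l]; exact Nat.mul_le_mul_right _ hj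
  obtain ⟨η, hη, he⟩ := H_row h1 hl 0 hb
  have e1 := he c hc
  have e2 := he l le_rfl
  rw [Nat.mul_zero, H_zero_left, Nat.zero_add, Nat.zero_add] at e1 e2
  have e3 := H_snoc (l := l) (ls := l1) hl 1 (j * l1.prod)
  rw [Nat.mul_one] at e3
  have e4 := H_period h1 (a := 1) h1.prod_pos j 0
  rw [H_zero_right, add_zero, add_zero, Nat.mul_one] at e4
  rw [e3, e4] at e2
  rw [e1]
  omega

/-- whole first blocks against the complement of the last `η ≤ l` elements -/
theorem H_rows {l : ℕ} {ls : List ℕ} (h : Pos (l :: ls)) {i η : ℕ} (hi : i ≤ l) (hη : η ≤ l)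
    (hiη : l ≤ i + η) :
    H (l :: ls) (i * ls.prod) (l * ls.prod - η) + (i + η - l) = i * ls.prod := by
  have h' := Pos.cons_iff.1 h
  have hV := h'.2.prod_pos
  have hp : (l :: ls).prod = l * ls.prod := List.prod_cons
  have hlV : l ≤ l * ls.prod := by
    calc l = l * 1 := (Nat.mul_one l).symm
      _ ≤ l * ls.prod := Nat.mul_le_mul_left _ hV
  rcases Nat.lt_or_ge i l with h1 | h1
  · obtain ⟨v, hv⟩ : ∃ v, ls.prod = v + 1 := ⟨ls.prod - 1, by omega⟩
    rcases Nat.lt_or_ge (l - η) l with h2 | h2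
    · have e1 : l * ls.prod - η = l * v + (l - η) := by
        rw [hv, Nat.mul_succ]; omega
      have e2 := H_step h'.2 (l := l) (q := i) (s := 0) (c := v) (r := l - η) h1 (Nat.zero_le _) h2
      rw [H_zero_left, add_zero, add_zero] at e2
      rw [e1, e2, hv, Nat.mul_succ]
      omega
    · have e0 : η = 0 := by omega
      omega
  · have e1 : i = l := le_antisymm hi h1
    subst e1
    have e2 := H_full h (a := (i :: ls).prod) le_rfl ((i :: ls).prod - η)
    rw [hp] at e2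
    rw [e2]
    omega

/-- complement and exchange of the two orders -/
theorem mirror {ls : List ℕ} (h : Pos ls) {K S B D : ℕ} (hK : 0 < K) (hS : S ≤ K * ls.prod)
    (hB : B ≤ K * ls.prod)
    (hH : H (K :: ls.reverse) (K * ls.prod - B) (K * ls.prod - S) + S + B ≤ K * ls.prod + D) :
    H (ls ++ [K]) S B ≤ D := by
  have h1 : Pos (ls ++ [K]) := Pos.append_iff.2 ⟨h, by simp [Pos, hK]⟩
  have h2 : Pos (K :: ls.reverse) := Pos.cons_iff.2 ⟨hK, h.reverse⟩
  have p1 : (ls ++ [K]).prod = K * ls.prod := by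
    rw [List.prod_append, List.prod_singleton, mul_comm]
  have p2 : (K :: ls.reverse).prod = K * ls.prod := by rw [List.prod_cons, prod_reverse]
  have e1 : (ls ++ [K]).reverse = K :: ls.reverse := by simp
  rw [H_comm h1 (by rw [p1]; exact hS) (by rw [p1]; exact hB), e1]
  have e2 := H_compl h2 (n := B) (c := 1) (b := S) (by rw [p2]; exact hB)
    (by rw [one_mul, p2]; exact hS)
  rw [one_mul, one_mul, p2] at e2
  omega

/-- case (A), with the existence of a level proved from the last digit -/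
theorem caseA' {l c η j0 P0 : ℕ} {ls l1 : List ℕ} (h : Pos (l :: ls)) (el : l :: ls = l1 ++ [l])
    (hcl : c + 1 ≤ l) (hη : 1 ≤ η) (hηl : η + 1 ≤ l) (hV : l ≤ ls.prod) (hj0 : 1 ≤ j0)
    (hj0c : j0 < c) (hP : P0 ≤ l) (hPg : l < P0 + η) {w0 n1 w2 n3 u : ℕ} {i j : ℕ → ℕ}
    (hi : ∀ z < n1, l < i z + η ∧ i z ≤ P0) (hj : ∀ z < n3, j0 ≤ j z ∧ j z < c)
    (hne : 1 ≤ n1 + w0) (hcond : P0 = l ∨ w0 ≤ u) {K S B D : ℕ}
    (hK : K = w0 + n1 + w2 + n3 + u)
    (hS : S = w0 * (P0 * ls.prod) + (∑ z ∈ range n1, i z * ls.prod) + c * (w2 + n3))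
    (hB : (B : ℤ) = w0 * (l * ls.prod) + (n1 + w2) * (l * ls.prod - η) +
      (∑ z ∈ range n3, (j z : ℤ)) * ls.prod + u * (j0 * ls.prod))
    (hD : (D : ℤ) = S - ∑ z ∈ range n1, ((i z : ℤ) + η - l) - ∑ z ∈ range n3, ((c : ℤ) - j z)) :
    H (K :: l :: ls) S B ≤ D := by
  refine caseA h hcl hη hηl hV hj0 hj0c hP hPg hi hj hne hcond hK hS hB hD ?_
  have h' := Pos.cons_iff.1 h
  have hVpos : 0 < ls.prod := h'.2.prod_pos
  have hp : (l :: ls).prod = l * ls.prod := List.prod_cons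
  have hl1 : Pos l1 := by
    rw [el] at h
    exact (Pos.append_iff.1 h).1
  have hU : l1.prod = ls.prod := by
    have : l1.prod * l = l * ls.prod := by
      rw [← hp, el, List.prod_append, List.prod_singleton]
    have h2 : l1.prod * l = ls.prod * l := by rw [this, mul_comm]
    exact Nat.eq_of_mul_eq_mul_right h'.1 h2
  have hle : (l - j0) * ls.prod ≤ l * ls.prod := Nat.mul_le_mul_right _ (Nat.sub_le _ _)
  have hηζ : η ≤ (l - j0) * ls.prod := by
    have : 1 * ls.prod ≤ (l - j0) * ls.prod := Nat.mul_le_mul_right _ (by omega)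
    omega
  -- the overlap of the first c elements
  have hOc : c - j0 ≤ Ov (l :: ls) ((l - j0) * ls.prod) c := by
    have e1 := Ov_eq h (ζ := (l - j0) * ls.prod) (X := c) (by
      rw [hp]
      calc c ≤ l * 1 := by omega
        _ ≤ l * ls.prod := Nat.mul_le_mul_left _ hVpos)
    have e2 : (l :: ls).prod - (l - j0) * ls.prod = j0 * l1.prod := by
      rw [hp, hU, Nat.sub_mul]
      have : j0 * ls.prod ≤ l * ls.prod := Nat.mul_le_mul_right _ (by omega)
      omega
    rw [e2] at e1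
    have e3 := H_first hl1 h'.1 (c := c) (j := j0) (by omega) (by omega)
    rw [← el] at e3
    rw [e3] at e1
    omega
  have hspl := Ov_split h ((l - j0) * ls.prod) w0 (P0 * ls.prod) n1 (c * (w2 + n3))
    (fun z => i z * ls.prod)
  rw [← hS] at hspl
  have hm := Ov_mul h ((l - j0) * ls.prod) (w2 + n3) c
  rw [mul_comm (w2 + n3) c] at hm
  have h1 : ∑ z ∈ range n1, ((i z : ℤ) + η - l) ≤
      (∑ z ∈ range n1, Ov (l :: ls) ((l - j0) * ls.prod) (i z * ls.prod) : ℕ) := by
    rw [Nat.cast_sum]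
    apply sum_le_sum
    intro y hy
    have hy' := hi y (mem_range.1 hy)
    have r1 := Ov_rows h (t := 0) (i := η) (f := i y) (by omega) (by omega) (by
      rw [Nat.zero_mul, Nat.zero_add]; omega)
    simp only [Nat.mul_zero, Nat.zero_mul, Nat.zero_add] at r1
    have r2 := Ov_mono_level (l :: ls) hηζ (i y * ls.prod)
    omega
  have h3 : ∑ z ∈ range n3, ((c : ℤ) - j z) ≤ (n3 : ℤ) * (c - j0) := by
    have : ∑ z ∈ range n3, ((c : ℤ) - j z) ≤ ∑ z ∈ range n3, ((c : ℤ) - j0) := by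
      apply sum_le_sum
      intro y hy
      have hy' := hj y (mem_range.1 hy)
      omega
    rwa [sum_const, card_range, nsmul_eq_mul] at this
  have h4 : ((n3 : ℤ)) * (c - j0) ≤ Ov (l :: ls) ((l - j0) * ls.prod) (c * (w2 + n3)) := by
    have e1 : (c : ℤ) - j0 ≤ Ov (l :: ls) ((l - j0) * ls.prod) c := by omega
    have e2 : ((w2 + n3 : ℕ) : ℤ) * (c - j0) ≤
        ((w2 + n3 : ℕ) : ℤ) * Ov (l :: ls) ((l - j0) * ls.prod) c :=
      mul_le_mul_of_nonneg_left e1 (Int.natCast_nonneg _)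
    have e3 : (((w2 + n3) * Ov (l :: ls) ((l - j0) * ls.prod) c : ℕ) : ℤ) ≤
        Ov (l :: ls) ((l - j0) * ls.prod) (c * (w2 + n3)) := by exact_mod_cast hm
    have e4 : (0 : ℤ) ≤ (w2 : ℤ) * (c - j0) := mul_nonneg (Int.natCast_nonneg _) (by omega)
    push_cast at e2 e3
    linarith
  have h5 : ((w0 * Ov (l :: ls) ((l - j0) * ls.prod) (P0 * ls.prod) +
      (∑ z ∈ range n1, Ov (l :: ls) ((l - j0) * ls.prod) (i z * ls.prod)) +
      Ov (l :: ls) ((l - j0) * ls.prod) (c * (w2 + n3)) : ℕ) : ℤ) ≤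
      Ov (l :: ls) ((l - j0) * ls.prod) S := by exact_mod_cast hspl
  rw [Nat.cast_add, Nat.cast_add] at h5
  have h6 : (0 : ℤ) ≤ ((w0 * Ov (l :: ls) ((l - j0) * ls.prod) (P0 * ls.prod) : ℕ) : ℤ) :=
    Int.natCast_nonneg _
  linarith

theorem sum_two (F : ℕ → ℤ) (w e A B : ℕ) :
    ∑ z ∈ range (w + e), F (if z < w then A else B) = w * F A + e * F B := by
  rw [sum_range_add]
  have h1 : ∀ z ∈ range w, F (if z < w then A else B) = F A := by
    intro z hz
    rw [if_pos (mem_range.1 hz)]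
  have h2 : ∀ z ∈ range e, F (if w + z < w then A else B) = F B := by
    intro z _
    rw [if_neg (by omega)]
  rw [sum_congr rfl h1, sum_congr rfl h2]
  simp

theorem sum_two' (F : ℕ → ℕ) (w e A B : ℕ) :
    ∑ z ∈ range (w + e), F (if z < w then A else B) = w * F A + e * F B := by
  have := sum_two (fun x => (F x : ℤ)) w e A B
  exact_mod_cast this

/-- the values of a corner pair: `S`, `B`, `D` -/
structure CV (l V K c η P0 j0 w0 w1 e i w2 w3 d j u S B D : ℕ) : Prop where
  hc : 1 ≤ c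
  hcl : c + 1 ≤ l
  hη : 1 ≤ η
  hηl : η + 1 ≤ l
  hP : P0 ≤ l
  hPη : l < P0 + η
  hj0 : j0 < c
  he : e ≤ 1
  hd : d ≤ 1
  hi : e = 1 → l < i + η ∧ i < P0
  hj : d = 1 → j0 < j ∧ j < c
  h1 : 1 ≤ w1 + e
  h3 : 1 ≤ w3 + d
  hK : K = w0 + w1 + e + w2 + w3 + d + u
  hS : (S : ℤ) = w0 * (P0 * V) + w1 * (P0 * V) + e * (i * V) + c * (w2 + w3 + d)
  hB : (B : ℤ) = (w0 : ℤ) * (l * V) + (w1 + e + w2) * (l * V - η) + w3 * (j0 * V) +
    d * (j * V) + u * (j0 * V)
  hD : (D : ℤ) = w0 * (P0 * V) + w1 * (P0 * V - (P0 + η - l)) + e * (i * V - (i + η - l)) +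
    w2 * c + w3 * j0 + d * j

theorem CV.first {l K c η P0 j0 w0 w1 e i w2 w3 d j u S B D : ℕ} {ls l1 : List ℕ}
    (h : Pos (l :: ls)) (el : l :: ls = l1 ++ [l]) (hV : l ≤ ls.prod)
    (C : CV l ls.prod K c η P0 j0 w0 w1 e i w2 w3 d j u S B D)
    (hcase : (1 ≤ j0 ∧ (P0 = l ∨ w0 ≤ u)) ∨ (P0 = l ∧ j0 = 0 ∧ w3 = 0) ∨
      (P0 = l ∧ j0 = 0 ∧ 1 ≤ w3 ∧ w3 ≤ w1 ∧ w3 + d ≤ w1 + e)) :
    H (K :: l :: ls) S B ≤ D := by
  obtain ⟨hc, hcl, hη, hηl, hP, hPη, hj0, he, hd, hi, hj, h1, h3, hK, hS, hB, hD⟩ := C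
  set V := ls.prod with hVd
  have si := sum_two (fun x => ((x : ℤ) + η - l)) w1 e P0 i
  have si' := sum_two' (fun x => x * V) w1 e P0 i
  have sj := sum_two (fun x => ((c : ℤ) - x)) w3 d j0 j
  have sj' := sum_two (fun x => (x : ℤ)) w3 d j0 j
  have hi' : ∀ z < w1 + e, l < (if z < w1 then P0 else i) + η ∧ (if z < w1 then P0 else i) ≤ P0 := by
    intro z hz
    split_ifs with h4
    · omega
    · have := hi (by omega)
      omega
  rcases hcase with ⟨hj1, hcond⟩ | ⟨hPl, hj00, hw30⟩ | ⟨hPl, hj00, hw3, hw, hwd⟩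
  · refine caseA' h el hcl hη hηl hV hj1 hj0 hP hPη (w0 := w0) (n1 := w1 + e) (w2 := w2)
      (n3 := w3 + d) (u := u) (i := fun z => if z < w1 then P0 else i)
      (j := fun z => if z < w3 then j0 else j) hi' ?_ (by omega) hcond (by omega) ?_ ?_ ?_
    · intro z hz
      show j0 ≤ (if z < w3 then j0 else j) ∧ (if z < w3 then j0 else j) < c
      split_ifs with h4
      · omega
      · have := hj (by omega)
        omega
    · rw [← hVd, si']
      zify
      rw [hS]
      push_cast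
      ring
    · rw [← hVd, sj', hB]
      push_cast
      ring
    · rw [si, sj, hD, hS]
      push_cast
      ring
  · subst hw30 hj00
    have hd1 : d = 1 := by omega
    subst hd1
    have hjj := hj rfl
    have hmono : H (K :: l :: ls) S B ≤ H (K :: l :: ls) S (B + u * V) :=
      H_mono_right _ _ (Nat.le_add_right _ _)
    refine hmono.trans ?_
    refine caseA' h el hcl hη hηl hV (j0 := 1) le_rfl (by omega) hP hPη (w0 := w0)
      (n1 := w1 + e) (w2 := w2) (n3 := 1) (u := u) (i := fun z => if z < w1 then P0 else i)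
      (j := fun _ => j) hi' (fun _ _ => by omega) (by omega) (Or.inl hPl) (by omega) ?_ ?_ ?_
    · rw [← hVd, si']
      zify
      rw [hS]
      push_cast
      ring
    · rw [← hVd]
      simp only [sum_const, card_range, nsmul_eq_mul]
      push_cast
      rw [hB]
      push_cast
      ring
    · simp only [sum_const, card_range, nsmul_eq_mul] at si ⊢
      rw [si, hD, hS]
      push_cast
      ring
  · subst hj00 hPl
    refine caseB h hc hcl hη hηl hV (w0 := w0) (w1 := w1) (e := e) (w2 := w2) (w3 := w3) (d := d)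
      (u := u) (i := fun _ => i) (j := fun _ => j) (fun z hz => ?_) (fun z hz => ?_) hw3 hw hwd hK
      ?_ ?_ ?_
    · have := hi (by omega)
      omega
    · have := hj (by omega)
      omega
    · simp only [sum_const, card_range, smul_eq_mul]
      rw [← hVd]
      zify
      rw [hS]
      push_cast
      ring
    · simp only [sum_const, card_range, nsmul_eq_mul]
      rw [← hVd, hB]
      push_cast
      ring
    · simp only [sum_const, card_range, nsmul_eq_mul]
      rw [hD, hS]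
      push_cast
      ring

/-- the mirror image of a corner pair -/
theorem CV.mirror {l V K c η P0 j0 w0 w1 e i w2 w3 d j u S B D : ℕ}
    (C : CV l V K c η P0 j0 w0 w1 e i w2 w3 d j u S B D) (hS' : S ≤ K * (l * V))
    (hB' : B ≤ K * (l * V)) {D' : ℕ} (hD' : D' + S + B = K * (l * V) + D) :
    CV l V K η c (l - j0) (l - P0) u w3 d (l - j) w2 w1 e (l - i) w0 (K * (l * V) - B)
      (K * (l * V) - S) D' := by
  obtain ⟨hc, hcl, hη, hηl, hP, hPη, hj0, he, hd, hi, hj, h1, h3, hK, hS, hB, hD⟩ := C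
  have hj0l : ((l - j0 : ℕ) : ℤ) = l - j0 := by push_cast [(by omega : j0 ≤ l)]; ring
  have hP0l : ((l - P0 : ℕ) : ℤ) = l - P0 := by push_cast [hP]; ring
  have hBz : ((K * (l * V) - B : ℕ) : ℤ) = K * (l * V) - B := by
    push_cast [hB']; ring
  have hSz : ((K * (l * V) - S : ℕ) : ℤ) = K * (l * V) - S := by
    push_cast [hS']; ring
  have hDz : (D' : ℤ) = K * (l * V) + D - S - B := by
    zify at hD'
    linarith
  have hil : ((e : ℤ)) * ((l - i : ℕ) : ℤ) = e * (l - i) := by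
    rcases Nat.eq_zero_or_pos e with h4 | h4
    · subst h4; simp
    · have := hi (by omega)
      push_cast [(by omega : i ≤ l)]
      ring
  have hjl : ((d : ℤ)) * ((l - j : ℕ) : ℤ) = d * (l - j) := by
    rcases Nat.eq_zero_or_pos d with h4 | h4
    · subst h4; simp
    · have := hj (by omega)
      push_cast [(by omega : j ≤ l)]
      ring
  refine ⟨hη, hηl, hc, hcl, by omega, by omega, by omega, hd, he, fun h5 => ?_, fun h5 => ?_,
    h3, h1, by omega, ?_, ?_, ?_⟩
  · have := hj h5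
    omega
  · have := hi h5
    omega
  · rw [hBz, hB, hK, hj0l]
    have e1 : (d : ℤ) * (((l - j : ℕ) : ℤ) * V) = d * (l - j) * V := by rw [← hjl]; ring
    rw [e1]
    push_cast
    ring
  · rw [hSz, hS, hK, hP0l]
    have e1 : (e : ℤ) * (((l - i : ℕ) : ℤ) * V) = e * (l - i) * V := by rw [← hil]; ring
    rw [e1]
    push_cast
    ring
  · rw [hDz, hD, hS, hB, hK, hP0l, hj0l]
    have e1 : (d : ℤ) * (((l - j : ℕ) : ℤ) * V - (((l - j : ℕ) : ℤ) + c - l)) =
        d * (l - j) * V - (d * (l - j) + d * (c - l)) := by rw [← hjl]; ring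
    have e2 : (e : ℤ) * ((l - i : ℕ) : ℤ) = e * (l - i) := hil
    rw [e1, e2]
    push_cast
    ring

/-- the corner theorem for equal sides, in terms of the values -/
theorem CV.good {l K c η P0 j0 w0 w1 e i w2 w3 d j u S B D : ℕ} {ls l1 : List ℕ}
    (h : Pos (l :: ls)) (el : l :: ls = l1 ++ [l]) (hV : l ≤ ls.prod)
    (C : CV l ls.prod K c η P0 j0 w0 w1 e i w2 w3 d j u S B D) (hS' : S ≤ K * (l * ls.prod))
    (hB' : B ≤ K * (l * ls.prod)) (hD' : S + B ≤ K * (l * ls.prod) + D) :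
    H (K :: l :: ls) S B ≤ D ∨ H ((l :: ls) ++ [K]) S B ≤ D := by
  by_cases hcase : (1 ≤ j0 ∧ (P0 = l ∨ w0 ≤ u)) ∨ (P0 = l ∧ j0 = 0 ∧ w3 = 0) ∨
      (P0 = l ∧ j0 = 0 ∧ 1 ≤ w3 ∧ w3 ≤ w1 ∧ w3 + d ≤ w1 + e)
  · exact Or.inl (C.first h el hV hcase)
  right
  have h' := Pos.cons_iff.1 h
  have hp : (l :: ls).prod = l * ls.prod := List.prod_cons
  obtain ⟨D', hD''⟩ : ∃ D', D' + S + B = K * (l * ls.prod) + D :=
    ⟨K * (l * ls.prod) + D - S - B, by omega⟩
  have C' := C.mirror hS' hB' hD''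
  have hK0 : 0 < K := by
    have := C.hK
    have := C.h1
    omega
  have hl1 : Pos l1 := by
    rw [el] at h
    exact (Pos.append_iff.1 h).1
  have hU : l1.prod = ls.prod := by
    have : l1.prod * l = l * ls.prod := by
      rw [← hp, el, List.prod_append, List.prod_singleton]
    have h2 : l1.prod * l = ls.prod * l := by rw [this, mul_comm]
    exact Nat.eq_of_mul_eq_mul_right h'.1 h2
  have hrev : (l :: ls).reverse = l :: l1.reverse := by rw [el]; simp
  have hrev2 : (l :: l1.reverse) = ls.reverse ++ [l] := by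
    rw [← hrev, List.reverse_cons]
  have hpr : l1.reverse.prod = ls.prod := by rw [prod_reverse, hU]
  have hP2 : Pos (l :: l1.reverse) := Pos.cons_iff.2 ⟨h'.1, hl1.reverse⟩
  rw [← hpr] at C'
  have hcv := C'.first hP2 hrev2 (by rw [hpr]; exact hV) (by
    have h4 := C.hj0
    have h5 := C.hP
    have h6 := C.he
    have h7 := C.hd
    have h8 := C.h1
    have h9 := C.h3
    have h10 := C.hcl
    have h11 := C.hi
    have h12 := C.hj
    omega)
  rw [hpr] at hcv
  apply DKWF.mirror h hK0 (by rw [hp]; exact hS') (by rw [hp]; exact hB')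
  rw [hrev, hp]
  omega

end DKWF
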