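import Mathlib

/-!
Integer inequalities for the node with `K` first, case (A): `J1` (levels `ζ ≤ l`) and the slope
`kappa`.
-/

namespace DKWF

theorem J1_alpha {γ lam n κ a μ : ℕ} {c l V η z f : ℤ} (hc : c = 2 + γ) (hl : l = c + 1 + lam)
    (hV : V = c + 1 + μ) (hη : η = 1 + n) (hz : z = η + κ) (hf : f = l - 1 - z - a) :
    0 ≤ c * ((l - 1) * V - η - c + 1) - (c - 1) * ((f + 1) * V - 1) := by
  subst hf hz hη hV hl hc
  ring_nf
  positivity

/-- the raw polynomial of the case `f + z ≥ l` -/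
def J1b (c l V η z o : ℤ) : ℤ :=
  c * (c - 1) * (o + 1) + c * ((l - 1) * V - η - c + 1) * (o + (z + 1 - η)) -
    (c - 1) * (z + 1 - η) * ((l - z + o + 1) * V - 1)

set_option maxRecDepth 10000 in
theorem J1b_nonneg {c l V η z o : ℕ} (hc : 2 ≤ c) (hcl : c + 1 ≤ l) (hη : 1 ≤ η) (hz : η ≤ z)
    (hzl : z + 1 ≤ l) (hV : l ≤ V) (ho : o + 1 ≤ z) : 0 ≤ J1b c l V η z o := by
  unfold J1b
  rcases Nat.lt_or_ge z c with h1 | h1
  · obtain ⟨w, rfl⟩ := Nat.exists_eq_add_of_le h1
    obtain ⟨a, rfl⟩ := Nat.exists_eq_add_of_le hcl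
    obtain ⟨ν, rfl⟩ := Nat.exists_eq_add_of_le hV
    rcases le_total (o + 1) η with h2 | h2
    · obtain ⟨u, rfl⟩ := Nat.exists_eq_add_of_le h2
      obtain ⟨κ, rfl⟩ := Nat.exists_eq_add_of_le hz
      push_cast
      ring_nf
      positivity
    · obtain ⟨n, rfl⟩ := Nat.exists_eq_add_of_le hη
      obtain ⟨u, hu⟩ := Nat.exists_eq_add_of_le h2
      obtain ⟨κ, rfl⟩ := Nat.exists_eq_add_of_le ho
      have : o = n + u := by omega
      subst this
      push_cast
      ring_nf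
      positivity
  · obtain ⟨w, hw⟩ := Nat.exists_eq_add_of_le h1
    obtain ⟨a, rfl⟩ := Nat.exists_eq_add_of_le hzl
    obtain ⟨ν, rfl⟩ := Nat.exists_eq_add_of_le hV
    obtain ⟨k1, hk1⟩ := Nat.exists_eq_add_of_le hz
    obtain ⟨k2, hk2⟩ := Nat.exists_eq_add_of_le ho
    -- z = c + w = η + k1 = o + 1 + k2
    have e1 : (c : ℤ) = z - w := by omega
    have e2 : (η : ℤ) = z - k1 := by omega
    have e3 : (o : ℤ) = z - 1 - k2 := by omega
    have f1 : w + 2 ≤ z := by omega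
    have f2 : k1 + 1 ≤ z := by omega
    have f3 : k2 + 1 ≤ z := by omega
    push_cast
    rw [e1, e2, e3]
    clear e1 e2 e3 hw hk1 hk2 ho hz hη hc h1 hcl hzl
    rcases le_total k1 k2 with g1 | g1
    · obtain ⟨p, rfl⟩ := Nat.exists_eq_add_of_le g1
      rcases Nat.lt_or_ge w (k1 + p) with g2 | g2
      · rcases Nat.lt_or_ge w k1 with g3 | g3
        · -- w < k1 ≤ k2
          obtain ⟨q, rfl⟩ := Nat.exists_eq_add_of_le g3
          obtain ⟨y, rfl⟩ := Nat.exists_eq_add_of_le f3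
          push_cast
          ring_nf
          positivity
        · -- k1 ≤ w < k2
          obtain ⟨q, rfl⟩ := Nat.exists_eq_add_of_le g3
          obtain ⟨y, hy⟩ := Nat.exists_eq_add_of_le g2
          have : p = q + 1 + y := by omega
          subst this
          obtain ⟨x, rfl⟩ := Nat.exists_eq_add_of_le f3
          push_cast
          ring_nf
          positivity
      · obtain ⟨q, rfl⟩ := Nat.exists_eq_add_of_le g2
        obtain ⟨y, rfl⟩ := Nat.exists_eq_add_of_le f1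
        push_cast
        ring_nf
        positivity
    · obtain ⟨p, rfl⟩ := Nat.exists_eq_add_of_le g1
      rcases Nat.lt_or_ge w (k2 + p) with g2 | g2
      · rcases Nat.lt_or_ge w k2 with g3 | g3
        · obtain ⟨q, rfl⟩ := Nat.exists_eq_add_of_le g3
          obtain ⟨y, rfl⟩ := Nat.exists_eq_add_of_le f2
          push_cast
          ring_nf
          positivity
        · obtain ⟨q, rfl⟩ := Nat.exists_eq_add_of_le g3
          obtain ⟨y, hy⟩ := Nat.exists_eq_add_of_le g2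
          have : p = q + 1 + y := by omega
          subst this
          obtain ⟨x, rfl⟩ := Nat.exists_eq_add_of_le f2
          push_cast
          ring_nf
          positivity
      · obtain ⟨q, rfl⟩ := Nat.exists_eq_add_of_le g2
        obtain ⟨y, rfl⟩ := Nat.exists_eq_add_of_le f1
        push_cast
        ring_nf
        positivity

/-- `J1`: levels `z + 1 ≤ l` -/
theorem J1 {c η z l V f s : ℕ} (hc : 2 ≤ c) (hcl : c + 1 ≤ l) (hη : 1 ≤ η) (hz : η ≤ z)
    (hzl : z + 1 ≤ l) (hV : l ≤ V) (hf : f + 1 ≤ l) (hs : s + 1 ≤ V) :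
    0 ≤ ((c : ℤ) - 1) * (c * ((f + z + 1 - l : ℕ) : ℤ) - (z + 1 - η) * (f * V + s)) +
      c * ((l - 1) * V - η - c + 1) * (((f + z - l : ℕ) : ℤ) + (z + 1 - η)) := by
  have hs' : (s : ℤ) ≤ V - 1 := by omega
  have hc' : (0 : ℤ) ≤ (c : ℤ) - 1 := by omega
  have hh : (0 : ℤ) ≤ (z : ℤ) + 1 - η := by omega
  rcases Nat.lt_or_ge (f + z) l with h1 | h1
  · have e1 : f + z + 1 - l = 0 := by omega
    have e2 : f + z - l = 0 := by omega
    rw [e1, e2]
    obtain ⟨a, ha⟩ := Nat.exists_eq_add_of_le h1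
    obtain ⟨γ, hγ⟩ := Nat.exists_eq_add_of_le hc
    obtain ⟨lam, hlam⟩ := Nat.exists_eq_add_of_le hcl
    obtain ⟨μ, hμ⟩ := Nat.exists_eq_add_of_le (hcl.trans hV)
    obtain ⟨n, hn⟩ := Nat.exists_eq_add_of_le hη
    obtain ⟨κ, hκ⟩ := Nat.exists_eq_add_of_le hz
    have key := J1_alpha (γ := γ) (lam := lam) (n := n) (κ := κ) (a := a) (μ := μ) (c := c)
      (l := l) (V := V) (η := η) (z := z) (f := f) (by rw [hγ]; push_cast; ring)
      (by rw [hlam]; push_cast; ring) (by rw [hμ]; push_cast; ring)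
      (by rw [hn]; push_cast; ring) (by rw [hκ]; push_cast; ring) (by omega)
    have h2 : ((c : ℤ) - 1) * (f * V + s) ≤ (c - 1) * ((f + 1) * V - 1) :=
      mul_le_mul_of_nonneg_left (by linarith) hc'
    have h3 : 0 ≤ ((z : ℤ) + 1 - η) * (c * ((l - 1) * V - η - c + 1) -
        (c - 1) * (f * V + s)) := mul_nonneg hh (by linarith)
    push_cast
    linarith
  · obtain ⟨o, ho⟩ := Nat.exists_eq_add_of_le h1
    have e1 : f + z + 1 - l = o + 1 := by omega
    have e2 : f + z - l = o := by omega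
    rw [e1, e2]
    have hf' : (f : ℤ) = l - z + o := by omega
    have key := J1b_nonneg hc hcl hη hz hzl hV (o := o) (by omega)
    unfold J1b at key
    have h2 : ((c : ℤ) - 1) * (z + 1 - η) * (f * V + s) ≤
        (c - 1) * (z + 1 - η) * ((l - z + o + 1) * V - 1) := by
      apply mul_le_mul_of_nonneg_left _ (mul_nonneg hc' hh)
      rw [hf']
      linarith
    push_cast
    linarith

theorem kappa_poly {c η l V : ℕ} (hc : 1 ≤ c) (hcl : c + 1 ≤ l) (hη : 1 ≤ η) (hηl : η + 1 ≤ l)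
    (hV : l ≤ V) :
    0 ≤ (((l : ℤ) - 1) * V - 1) * ((l - c) * V - c * η) + (c - 1) * (c + (η - 1) * (l * V)) := by
  rcases le_total η c with h1 | h1
  · obtain ⟨n, rfl⟩ := Nat.exists_eq_add_of_le hη
    obtain ⟨p, rfl⟩ := Nat.exists_eq_add_of_le h1
    obtain ⟨a, rfl⟩ := Nat.exists_eq_add_of_le hcl
    obtain ⟨ν, rfl⟩ := Nat.exists_eq_add_of_le hV
    push_cast
    ring_nf
    positivity
  · obtain ⟨γ, rfl⟩ := Nat.exists_eq_add_of_le hc
    obtain ⟨p, rfl⟩ := Nat.exists_eq_add_of_le h1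
    obtain ⟨a, rfl⟩ := Nat.exists_eq_add_of_le hηl
    obtain ⟨ν, rfl⟩ := Nat.exists_eq_add_of_le hV
    push_cast
    ring_nf
    positivity

/-- the slope in the number of full blocks is nonnegative -/
theorem kappa {c η z l V : ℕ} (hc : 1 ≤ c) (hcl : c + 1 ≤ l) (hη : 1 ≤ η) (hηl : η + 1 ≤ l)
    (hV : l ≤ V) (hz : z + 1 + V ≤ l * V) :
    0 ≤ ((c : ℤ) - 1) * (c * (z + 1) - (z + 1 - η) * (l * V)) +
      c * ((l - 1) * V - η - c + 1) * z := by
  have e : ((c : ℤ) - 1) * (c * (z + 1) - (z + 1 - η) * (l * V)) +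
      c * ((l - 1) * V - η - c + 1) * z =
      z * ((l - c) * V - c * η) + (c - 1) * (c + (η - 1) * (l * V)) := by ring
  rw [e]
  have hz' : (z : ℤ) ≤ (l - 1) * V - 1 := by
    have : (z : ℤ) + 1 + V ≤ l * V := by exact_mod_cast hz
    linarith
  rcases le_total 0 (((l : ℤ) - c) * V - c * η) with h1 | h1
  · have h2 : (0 : ℤ) ≤ (c - 1) * (c + (η - 1) * (l * V)) := by
      have h3 : (0 : ℤ) ≤ (c : ℤ) - 1 := by omega
      have h4 : (0 : ℤ) ≤ (η : ℤ) - 1 := by omega
      positivity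
    have h3 : (0 : ℤ) ≤ z * ((l - c) * V - c * η) := mul_nonneg (by positivity) h1
    linarith
  · have h2 := kappa_poly hc hcl hη hηl hV
    have h3 : (((l : ℤ) - 1) * V - 1) * ((l - c) * V - c * η) ≤ z * ((l - c) * V - c * η) :=
      mul_le_mul_of_nonpos_right hz' h1
    linarith

end DKWF
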