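import Mathlib

/-!
Integer inequalities for the node with `K` first, case (B).  Here `z = η + h - 1` is the level at
which the first test fails, `1 ≤ h ≤ c`, and `AB = h N - (z + 1) c`.
-/

namespace DKWF

/-- the multiplier of the first test -/
def AB (c l V η h : ℤ) : ℤ := h * (l * V) - (η + h) * c

/-- the gain of a pair of a full slice and an empty slice -/
def DB (c l V η h : ℤ) : ℤ :=
  (η + h - 1) * c * (l * V - η - c) - AB c l V η h * (c - h + 1)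

/-- the gain of a slice with intermediate second level `j` -/
def DBj (c l V η h j : ℤ) : ℤ :=
  (η + h - 1) * c * ((l - j) * V - η - (c - j)) - AB c l V η h * (c - j)

/-- the expression for one pair and `X` -/
def SB (c l V η h oz oζ X : ℤ) : ℤ :=
  DB c l V η h + AB c l V η h * (1 + oz) + (η + h - 1) * (c * oζ - h * X)

set_option maxRecDepth 20000

theorem SB_a1 (κ a q p ν b : ℕ) :
    0 ≤ SB (1 + κ + p) (p + q + κ + 2 + a) (p + q + κ + 2 + a + ν) (1 + (p + q)) (1 + κ) 0 0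
      (((p + q + κ + 2 + a : ℤ) - 1 - (1 + (p + q) + κ) - b + 1) * (p + q + κ + 2 + a + ν) - 1) := by
  unfold SB DB AB
  ring_nf
  positivity

theorem SB_a2 (κ a q n ν b : ℕ) :
    0 ≤ SB (1 + κ + (n + q)) (n + q + κ + 2 + a) (n + q + κ + 2 + a + ν) (1 + n) (1 + κ) 0 0
      (((n + q + κ + 2 + a : ℤ) - 1 - (1 + n + κ) - b + 1) * (n + q + κ + 2 + a + ν) - 1) := by
  unfold SB DB AB
  ring_nf
  positivity

theorem SB_b1 (κ a q p ν o : ℕ) :
    0 ≤ SB (1 + κ + p) (p + q + κ + 2 + a) (p + q + κ + 2 + a + ν) (1 + (p + q)) (1 + κ) o (o + 1)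
      (((p + q + κ + 2 + a : ℤ) - (1 + (p + q) + κ) + o + 1) * (p + q + κ + 2 + a + ν) - 1) := by
  unfold SB DB AB
  ring_nf
  positivity

theorem SB_b2 (κ a q n ν o : ℕ) :
    0 ≤ SB (1 + κ + (n + q)) (n + q + κ + 2 + a) (n + q + κ + 2 + a + ν) (1 + n) (1 + κ) o (o + 1)
      (((n + q + κ + 2 + a : ℤ) - (1 + n + κ) + o + 1) * (n + q + κ + 2 + a + ν) - 1) := by
  unfold SB DB AB
  ring_nf
  positivity

theorem SB_c (i κ p a ν b : ℕ) :
    0 ≤ SB (i + 2 + κ + p) (i + 2 + κ + p + 1 + a) (i + 2 + κ + p + 1 + a + ν) (p + a + 2 + i)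
      (i + 2 + κ) ((i + 2 + κ + p + 1 + a : ℤ) - 1 - i - b)
      ((i + 2 + κ + p + 1 + a : ℤ) - 1 - i - b)
      (((i + 2 + κ + p + 1 + a : ℤ) - 1 - i - b + 1) * (i + 2 + κ + p + 1 + a + ν) - 1) := by
  unfold SB DB AB
  ring_nf
  positivity

theorem SB_d (i κ p a ν b : ℕ) :
    0 ≤ SB (i + 2 + κ + p) (i + 2 + κ + p + 1 + a) (i + 2 + κ + p + 1 + a + ν) (p + a + 2 + i)
      (i + 2 + κ) (2 * ((i + 2 + κ + p + 1 + a : ℤ) - i + b) + i - (i + 2 + κ + p + 1 + a))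
      (2 * ((i + 2 + κ + p + 1 + a : ℤ) - i + b) + i - (i + 2 + κ + p + 1 + a) + 1)
      (((i + 2 + κ + p + 1 + a : ℤ) - i + b + 1) * (i + 2 + κ + p + 1 + a + ν) - 1) := by
  unfold SB DB AB
  ring_nf
  positivity

theorem DB_1 (κ q r a ν : ℕ) :
    0 ≤ DB (1 + κ + q + r) (1 + κ + q + r + 1 + a) (1 + κ + q + r + 1 + a + ν) (1 + κ + q)
      (1 + κ) := by
  unfold DB AB
  ring_nf
  positivity

theorem DB_2 (n q r a ν : ℕ) :
    0 ≤ DB (1 + n + q + r) (1 + n + q + r + 1 + a) (1 + n + q + r + 1 + a + ν) (1 + n)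
      (1 + n + q) := by
  unfold DB AB
  ring_nf
  positivity

theorem DB_3 (κ p q a ν : ℕ) :
    0 ≤ DB (1 + κ + p) (1 + κ + p + 1 + q + 1 + a) (1 + κ + p + 1 + q + 1 + a + ν)
      (1 + κ + p + 1 + q) (1 + κ) := by
  unfold DB AB
  ring_nf
  positivity

theorem AB_1 (κ q r a ν : ℕ) :
    0 ≤ AB (1 + κ + q + r) (1 + κ + q + r + 1 + a) (1 + κ + q + r + 1 + a + ν) (1 + κ + q)
      (1 + κ) := by
  unfold AB
  ring_nf
  positivity

theorem AB_2 (n q r a ν : ℕ) :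
    0 ≤ AB (1 + n + q + r) (1 + n + q + r + 1 + a) (1 + n + q + r + 1 + a + ν) (1 + n)
      (1 + n + q) := by
  unfold AB
  ring_nf
  positivity

theorem AB_3 (κ p q a ν : ℕ) :
    0 ≤ AB (1 + κ + p) (1 + κ + p + 1 + q + 1 + a) (1 + κ + p + 1 + q + 1 + a + ν)
      (1 + κ + p + 1 + q) (1 + κ) := by
  unfold AB
  ring_nf
  positivity

theorem orders {c η h l V : ℕ} (h1 : 1 ≤ h) (hhc : h ≤ c) (hcl : c + 1 ≤ l) (hη : 1 ≤ η)
    (hηl : η + 1 ≤ l) (hV : l ≤ V) :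
    (∃ κ q r a ν : ℕ, c = 1 + κ + q + r ∧ l = 1 + κ + q + r + 1 + a ∧
      V = 1 + κ + q + r + 1 + a + ν ∧ η = 1 + κ + q ∧ h = 1 + κ) ∨
    (∃ n q r a ν : ℕ, c = 1 + n + q + r ∧ l = 1 + n + q + r + 1 + a ∧
      V = 1 + n + q + r + 1 + a + ν ∧ η = 1 + n ∧ h = 1 + n + q) ∨
    ∃ κ p q a ν : ℕ, c = 1 + κ + p ∧ l = 1 + κ + p + 1 + q + 1 + a ∧
      V = 1 + κ + p + 1 + q + 1 + a + ν ∧ η = 1 + κ + p + 1 + q ∧ h = 1 + κ := by
  rcases Nat.lt_or_ge c η with h2 | h2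
  · right; right
    exact ⟨h - 1, c - h, η - c - 1, l - η - 1, V - l, by omega, by omega, by omega, by omega,
      by omega⟩
  · rcases le_total h η with h3 | h3
    · left
      exact ⟨h - 1, η - h, c - η, l - c - 1, V - l, by omega, by omega, by omega, by omega,
        by omega⟩
    · right; left
      exact ⟨η - 1, h - η, c - h, l - c - 1, V - l, by omega, by omega, by omega, by omega,
        by omega⟩

theorem AB_nonneg {c η h l V : ℕ} (h1 : 1 ≤ h) (hhc : h ≤ c) (hcl : c + 1 ≤ l) (hη : 1 ≤ η)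
    (hηl : η + 1 ≤ l) (hV : l ≤ V) : 0 ≤ AB c l V η h := by
  rcases orders h1 hhc hcl hη hηl hV with ⟨κ, q, r, a, ν, rfl, rfl, rfl, rfl, rfl⟩ |
    ⟨n, q, r, a, ν, rfl, rfl, rfl, rfl, rfl⟩ | ⟨κ, p, q, a, ν, rfl, rfl, rfl, rfl, rfl⟩
  · have := AB_1 κ q r a ν
    push_cast
    exact this
  · have := AB_2 n q r a ν
    push_cast
    exact this
  · have := AB_3 κ p q a ν
    push_cast
    exact this

theorem DB_nonneg {c η h l V : ℕ} (h1 : 1 ≤ h) (hhc : h ≤ c) (hcl : c + 1 ≤ l) (hη : 1 ≤ η)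
    (hηl : η + 1 ≤ l) (hV : l ≤ V) : 0 ≤ DB c l V η h := by
  rcases orders h1 hhc hcl hη hηl hV with ⟨κ, q, r, a, ν, rfl, rfl, rfl, rfl, rfl⟩ |
    ⟨n, q, r, a, ν, rfl, rfl, rfl, rfl, rfl⟩ | ⟨κ, p, q, a, ν, rfl, rfl, rfl, rfl, rfl⟩
  · have := DB_1 κ q r a ν
    push_cast
    exact this
  · have := DB_2 n q r a ν
    push_cast
    exact this
  · have := DB_3 κ p q a ν
    push_cast
    exact this

theorem SB_mono {c η h l V : ℕ} {oz oζ X oz' oζ' X' : ℤ} (h1 : 1 ≤ h) (hhc : h ≤ c)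
    (hcl : c + 1 ≤ l) (hη : 1 ≤ η) (hηl : η + 1 ≤ l) (hV : l ≤ V) (e1 : oz ≤ oz') (e2 : oζ ≤ oζ')
    (e3 : X' ≤ X) (hs : 0 ≤ SB c l V η h oz oζ X) : 0 ≤ SB c l V η h oz' oζ' X' := by
  have hA := AB_nonneg h1 hhc hcl hη hηl hV
  have hz : (0 : ℤ) ≤ (η : ℤ) + h - 1 := by
    have : (1 : ℤ) ≤ η := by exact_mod_cast hη
    have := Int.natCast_nonneg h
    linarith
  have m1 := mul_le_mul_of_nonneg_left e1 hA
  have m2 : (c : ℤ) * oζ - h * X ≤ c * oζ' - h * X' := by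
    have n1 := mul_le_mul_of_nonneg_left e2 (Int.natCast_nonneg c)
    have n2 := mul_le_mul_of_nonneg_left e3 (Int.natCast_nonneg h)
    linarith
  have m3 := mul_le_mul_of_nonneg_left m2 hz
  unfold SB at hs ⊢
  linarith

/-- levels below `l` -/
theorem SB_low {c η h l V f s : ℕ} (h1 : 1 ≤ h) (hhc : h ≤ c) (hcl : c + 1 ≤ l) (hη : 1 ≤ η)
    (hηl : η + 1 ≤ l) (hV : l ≤ V) (hz : η + h ≤ l) (hf : f + 1 ≤ l) (hs : s + 1 ≤ V) :
    0 ≤ SB c l V η h ((f + (η + h - 1) - l : ℕ) : ℤ) ((f + (η + h) - l : ℕ) : ℤ)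
      ((f * V + s : ℕ) : ℤ) := by
  have hX : ((f * V + s : ℕ) : ℤ) ≤ ((f : ℤ) + 1) * V - 1 := by
    push_cast
    have : (s : ℤ) + 1 ≤ V := by exact_mod_cast hs
    linarith
  rcases Nat.lt_or_ge (f + (η + h - 1)) l with h2 | h2
  · refine SB_mono h1 hhc hcl hη hηl hV (oz := 0) (oζ := 0) (X := ((f : ℤ) + 1) * V - 1)
      (Int.natCast_nonneg _) (Int.natCast_nonneg _) hX ?_
    obtain ⟨κ, rfl⟩ := Nat.exists_eq_add_of_le h1
    obtain ⟨p, rfl⟩ := Nat.exists_eq_add_of_le hhc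
    obtain ⟨n, rfl⟩ := Nat.exists_eq_add_of_le hη
    obtain ⟨b, hb⟩ := Nat.exists_eq_add_of_lt h2
    rcases le_total p n with h3 | h3
    · obtain ⟨q, rfl⟩ := Nat.exists_eq_add_of_le h3
      obtain ⟨a, ha⟩ : ∃ a, l = p + q + κ + 2 + a := ⟨l - (p + q + κ + 2), by omega⟩
      subst ha
      obtain ⟨ν, rfl⟩ := Nat.exists_eq_add_of_le hV
      have key := SB_a1 κ a q p ν b
      have e : (f : ℤ) = (p + q + κ + 2 + a : ℤ) - 1 - (1 + (p + q) + κ) - b := by omega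
      rw [← e] at key
      push_cast
      exact key
    · obtain ⟨q, rfl⟩ := Nat.exists_eq_add_of_le h3
      obtain ⟨a, ha⟩ : ∃ a, l = n + q + κ + 2 + a := ⟨l - (n + q + κ + 2), by omega⟩
      subst ha
      obtain ⟨ν, rfl⟩ := Nat.exists_eq_add_of_le hV
      have key := SB_a2 κ a q n ν b
      have e : (f : ℤ) = (n + q + κ + 2 + a : ℤ) - 1 - (1 + n + κ) - b := by omega
      rw [← e] at key
      push_cast
      exact key
  · obtain ⟨o, ho⟩ := Nat.exists_eq_add_of_le h2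
    refine SB_mono h1 hhc hcl hη hηl hV (oz := o) (oζ := o + 1) (X := ((f : ℤ) + 1) * V - 1)
      (by omega) (by omega) hX ?_
    obtain ⟨κ, rfl⟩ := Nat.exists_eq_add_of_le h1
    obtain ⟨p, rfl⟩ := Nat.exists_eq_add_of_le hhc
    obtain ⟨n, rfl⟩ := Nat.exists_eq_add_of_le hη
    rcases le_total p n with h3 | h3
    · obtain ⟨q, rfl⟩ := Nat.exists_eq_add_of_le h3
      obtain ⟨a, ha⟩ : ∃ a, l = p + q + κ + 2 + a := ⟨l - (p + q + κ + 2), by omega⟩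
      subst ha
      obtain ⟨ν, rfl⟩ := Nat.exists_eq_add_of_le hV
      have key := SB_b1 κ a q p ν o
      have e : (f : ℤ) = (p + q + κ + 2 + a : ℤ) - (1 + (p + q) + κ) + o := by omega
      rw [← e] at key
      push_cast
      exact key
    · obtain ⟨q, rfl⟩ := Nat.exists_eq_add_of_le h3
      obtain ⟨a, ha⟩ : ∃ a, l = n + q + κ + 2 + a := ⟨l - (n + q + κ + 2), by omega⟩
      subst ha
      obtain ⟨ν, rfl⟩ := Nat.exists_eq_add_of_le hV
      have key := SB_b2 κ a q n ν o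
      have e : (f : ℤ) = (n + q + κ + 2 + a : ℤ) - (1 + n + κ) + o := by omega
      rw [← e] at key
      push_cast
      exact key

/-- levels above `l` -/
theorem SB_high {c η h l V f s i : ℕ} (h1 : 1 ≤ h) (hhc : h ≤ c) (hcl : c + 1 ≤ l) (hη : 1 ≤ η)
    (hηl : η + 1 ≤ l) (hV : l ≤ V) (hz : η + h = l + i + 1) (hf : f + 1 ≤ l) (hs : s + 1 ≤ V) :
    0 ≤ SB c l V η h ((f + (f + i - l) : ℕ) : ℤ) ((f + (f + (i + 1) - l) : ℕ) : ℤ)
      ((f * V + s : ℕ) : ℤ) := by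
  have hX : ((f * V + s : ℕ) : ℤ) ≤ ((f : ℤ) + 1) * V - 1 := by
    push_cast
    have : (s : ℤ) + 1 ≤ V := by exact_mod_cast hs
    linarith
  obtain ⟨κ, hκ⟩ : ∃ κ, h = i + 2 + κ := ⟨h - (i + 2), by omega⟩
  obtain ⟨p, hp⟩ := Nat.exists_eq_add_of_le hhc
  obtain ⟨a, ha⟩ := Nat.exists_eq_add_of_le hcl
  obtain ⟨ν, hν⟩ := Nat.exists_eq_add_of_le hV
  rcases Nat.lt_or_ge (f + i) l with h2 | h2
  · obtain ⟨b, hb⟩ := Nat.exists_eq_add_of_lt h2
    have e : (f : ℤ) = (i + 2 + κ + p + 1 + a : ℤ) - 1 - i - b := by omega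
    refine SB_mono h1 hhc hcl hη hηl hV (oz := f) (oζ := f) (X := ((f : ℤ) + 1) * V - 1)
      (by omega) (by omega) hX ?_
    have key := SB_c i κ p a ν b
    rw [← e] at key
    have e1 : (c : ℤ) = i + 2 + κ + p := by omega
    have e2 : (l : ℤ) = i + 2 + κ + p + 1 + a := by omega
    have e3 : (V : ℤ) = i + 2 + κ + p + 1 + a + ν := by omega
    have e4 : (η : ℤ) = p + a + 2 + i := by omega
    have e5 : (h : ℤ) = i + 2 + κ := by omega
    rw [e1, e2, e3, e4, e5]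
    exact key
  · obtain ⟨b, hb⟩ := Nat.exists_eq_add_of_le h2
    have e : (f : ℤ) = (i + 2 + κ + p + 1 + a : ℤ) - i + b := by omega
    have e2 : (l : ℤ) = i + 2 + κ + p + 1 + a := by omega
    refine SB_mono h1 hhc hcl hη hηl hV (oz := 2 * f + i - l) (oζ := 2 * f + i - l + 1)
      (X := ((f : ℤ) + 1) * V - 1) (by omega) (by omega) hX ?_
    have key := SB_d i κ p a ν b
    rw [← e] at key
    have e1 : (c : ℤ) = i + 2 + κ + p := by omega
    have e3 : (V : ℤ) = i + 2 + κ + p + 1 + a + ν := by omega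
    have e4 : (η : ℤ) = p + a + 2 + i := by omega
    have e5 : (h : ℤ) = i + 2 + κ := by omega
    rw [e1, e2, e3, e4, e5]
    exact key

end DKWF
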