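import Pool.Agent.Lib.MP_f05b2f_co.C.IneqJ2c

/-!
`J2`: the inequality for levels `ζ > l` in case (A).
-/

namespace DKWF

theorem G1_shift (L n V oz oζ be al h X δ : ℤ) :
    G1 L n V (oz + δ) (oζ + δ) be al h (X + δ) = G1 L n V oz oζ be al h X +
      δ * (L * (L * (V - 1) - n) + L * (L - 1) - (L - 1) * h) := by
  unfold G1
  ring

theorem G1_shift_nonneg {L n V oz oζ be al h X δ : ℤ} (hL : 1 ≤ L) (hδ : 0 ≤ δ)
    (hh0 : 0 ≤ h) (hh : h ≤ L * V - n - 1) (h0 : 0 ≤ G1 L n V oz oζ be al h X) :
    0 ≤ G1 L n V (oz + δ) (oζ + δ) be al h (X + δ) := by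
  rw [G1_shift]
  have h1 : 0 ≤ L * (L * (V - 1) - n) + L * (L - 1) - (L - 1) * h := by
    have h2 : (L - 1) * h ≤ (L - 1) * (L * V - n - 1) :=
      mul_le_mul_of_nonneg_left hh (by linarith)
    have h3 : L * (L * (V - 1) - n) + L * (L - 1) - (L - 1) * (L * V - n - 1) =
      L * V - n - 1 := by ring
    linarith
  have := mul_nonneg hδ h1
  linarith

theorem G1_mono_X {L n V oz oζ be al h X X' : ℤ} (hL : 1 ≤ L) (hh0 : 0 ≤ h) (hX : X ≤ X')
    (h0 : 0 ≤ G1 L n V oz oζ be al h X') : 0 ≤ G1 L n V oz oζ be al h X := by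
  unfold G1 at *
  have : (L - 1) * h * X ≤ (L - 1) * h * X' :=
    mul_le_mul_of_nonneg_left hX (mul_nonneg (by linarith) hh0)
  linarith

/-- `J2` for `c = L = l - 1` -/
theorem J2_L {n L V t i f s : ℕ} (hnL : n + 1 ≤ L) (hV : L + 1 ≤ V) (ht : 1 ≤ t) (hi : 1 ≤ i)
    (hil : i ≤ L + 1) (htV : t * (L + 1) + i ≤ L * V) (hf : f ≤ L) (hs : s + 1 ≤ V) :
    0 ≤ G1 L n V
      ((f * t + (f + (i - 1) - (L + 1)) + (s + t + (if L + 1 ≤ f + (i - 1) then 1 else 0) - V) : ℕ) : ℤ)
      ((f * t + (f + i - (L + 1)) + (s + t + (if L + 1 ≤ f + i then 1 else 0) - V) : ℕ) : ℤ)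
      (((L : ℤ) - n + 1) * t + ((i - (n + 1) : ℕ) : ℤ))
      ((n : ℤ) * (t - 1) + ((min i n : ℕ) : ℤ)) ((t : ℤ) * (L + 1) + i - (n + 1))
      (f * V + s) := by
  have hL1 : (1 : ℤ) ≤ (L : ℤ) := by omega
  have ht1 : (L : ℤ) + 1 ≤ t * (L + 1) := by
    have : 1 * (L + 1) ≤ t * (L + 1) := Nat.mul_le_mul_right _ ht
    have h2 : ((1 * (L + 1) : ℕ) : ℤ) ≤ ((t * (L + 1) : ℕ) : ℤ) := by exact_mod_cast this
    push_cast at h2
    linarith
  have hh0 : (0 : ℤ) ≤ (t : ℤ) * (L + 1) + i - (n + 1) := by
    have : (n : ℤ) + 1 ≤ L := by exact_mod_cast hnL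
    linarith
  have hh : (t : ℤ) * (L + 1) + i - (n + 1) ≤ L * V - n - 1 := by
    have : ((t * (L + 1) + i : ℕ) : ℤ) ≤ ((L * V : ℕ) : ℤ) := by exact_mod_cast htV
    push_cast at this
    linarith
  obtain ⟨ν, hν⟩ := Nat.exists_eq_add_of_le hV
  obtain ⟨τ, hτ⟩ := Nat.exists_eq_add_of_le ht
  have hνz : (V : ℤ) = L + 1 + ν := by rw [hν]; push_cast; ring
  have hτz : (t : ℤ) = 1 + τ := by rw [hτ]; push_cast; ring
  obtain ⟨g, hg⟩ : ∃ g : ℕ, L = g + n := ⟨L - n, by omega⟩
  have hgz : (L : ℤ) = (g : ℤ) + n := by rw [hg]; push_cast; ring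
  have hg1 : 1 ≤ g := by omega
  have hbe : ((L : ℤ) - n + 1) * t = ((g : ℤ) + 1) * t := by rw [hgz]; ring
  rw [hbe]
  rcases Nat.lt_or_ge i (n + 1) with hin | hin
  · -- i < η
    obtain ⟨d, hd⟩ : ∃ d : ℕ, n + 1 = i + d := ⟨n + 1 - i, by omega⟩
    have hd1 : 1 ≤ d := by omega
    have hdn : d ≤ n := by omega
    obtain ⟨q, hq⟩ := Nat.exists_eq_add_of_le hdn
    have e1 : i - (n + 1) = 0 := by omega
    have e2 : min i n = i := by omega
    have e3 : (i : ℤ) = n + 1 - d := by omega
    rw [e1, e2]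
    have e4 : ((g : ℤ) + 1) * t + ((0 : ℕ) : ℤ) = ((g : ℤ) + 1) * t := by push_cast; ring
    have e5 : (n : ℤ) * (t - 1) + (i : ℤ) = n * t + 1 - d := by rw [e3]; ring
    have e6 : (t : ℤ) * (L + 1) + i - (n + 1) = t * (L + 1) - d := by rw [e3]; ring
    rw [e4, e5, e6]
    rw [e6] at hh0 hh
    rcases lt_trichotomy (f + i) (L + 1) with hfi | hfi | hfi
    · -- case a
      rw [if_neg (by omega), if_neg (by omega)]
      have e7 : f + (i - 1) - (L + 1) = 0 := by omega
      have e8 : f + i - (L + 1) = 0 := by omega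
      rw [e7, e8]
      simp only [add_zero]
      have base : 0 ≤ G1 L n V (f * t) (f * t) ((g + 1) * t) (n * t + 1 - d) (t * (L + 1) - d)
          ((f + 1) * V - t) := by
        rcases Nat.lt_or_ge f g with h1 | h1
        · obtain ⟨e, he⟩ := Nat.exists_eq_add_of_le h1
          obtain ⟨r, hr⟩ := Nat.exists_eq_add_of_le hd1
          exact J2_am1 (e := e) (r := r) (q := q) (τ := τ) (ν := ν) (by rw [he]; push_cast; ring)
            (by rw [hr]; push_cast; ring) (by rw [hq]; push_cast; ring) hgz hνz hτz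
        · obtain ⟨x, hx⟩ := Nat.exists_eq_add_of_le h1
          obtain ⟨e, he⟩ := Nat.exists_eq_add_of_le hg1
          obtain ⟨r, hr⟩ := Nat.exists_eq_add_of_le (show 1 + x ≤ d by omega)
          exact J2_am2 (e := e) (x := x) (r := r) (q := q) (τ := τ) (ν := ν)
            (by rw [he]; push_cast; ring) (by rw [hx]; push_cast; ring)
            (by rw [hr]; push_cast; ring) (by rw [hq]; push_cast; ring) hgz hνz hτz
      rcases le_total (s + t) V with h1 | h1
      · rw [Nat.sub_eq_zero_of_le h1]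
        push_cast
        rw [add_zero]
        refine G1_mono_X hL1 hh0 ?_ base
        have : (s : ℤ) + t ≤ V := by exact_mod_cast h1
        linarith
      · obtain ⟨δ, hδ⟩ := Nat.exists_eq_add_of_le h1
        have e9 : s + t - V = δ := by omega
        rw [e9]
        have := G1_shift_nonneg (δ := (δ : ℤ)) hL1 (by positivity) hh0 hh base
        have e10 : (f : ℤ) * V + s = (f + 1) * V - t + δ := by
          have : (s : ℤ) + t = V + δ := by exact_mod_cast hδ
          linarith
        rw [e10]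
        push_cast
        exact this
    · -- case c
      rw [if_neg (by omega), if_pos (by omega)]
      have e7 : f + (i - 1) - (L + 1) = 0 := by omega
      have e8 : f + i - (L + 1) = 0 := by omega
      rw [e7, e8]
      simp only [add_zero]
      obtain ⟨e, he⟩ := Nat.exists_eq_add_of_le hg1
      obtain ⟨r, hr⟩ := Nat.exists_eq_add_of_le hd1
      have hfz : (f : ℤ) = g + d := by omega
      rcases Nat.lt_or_ge (s + t) V with h1 | h1
      · have base := J2_cmt1 (e := e) (r := r) (q := q) (τ := τ) (ν := ν) (L := L) (V := V)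
          (t := t) (g := g) (d := d) (n := n) (f := f) (by rw [he]; push_cast; ring)
          (by rw [hr]; push_cast; ring) hfz (by rw [hq]; push_cast; ring) hgz hνz hτz
        rw [Nat.sub_eq_zero_of_le h1.le, Nat.sub_eq_zero_of_le (show s + t + 1 ≤ V from h1)]
        push_cast
        rw [add_zero]
        refine G1_mono_X hL1 hh0 ?_ base
        have : (s : ℤ) + t + 1 ≤ V := by exact_mod_cast h1
        linarith
      · have base := J2_cmt (e := e) (r := r) (q := q) (τ := τ) (ν := ν) (L := L) (V := V)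
          (t := t) (g := g) (d := d) (n := n) (f := f) (by rw [he]; push_cast; ring)
          (by rw [hr]; push_cast; ring) hfz (by rw [hq]; push_cast; ring) hgz hνz hτz
        obtain ⟨δ, hδ⟩ := Nat.exists_eq_add_of_le h1
        have e9 : s + t - V = δ := by omega
        have e9' : s + t + 1 - V = δ + 1 := by omega
        rw [e9, e9']
        have := G1_shift_nonneg (δ := (δ : ℤ)) hL1 (by positivity) hh0 hh base
        have e10 : (f : ℤ) * V + s = (f + 1) * V - t + δ := by
          have : (s : ℤ) + t = V + δ := by exact_mod_cast hδ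
          linarith
        rw [e10]
        push_cast
        have e11 : (f : ℤ) * t + (δ + 1) = f * t + 1 + δ := by ring
        rw [e11]
        exact this
    · -- case b
      rw [if_pos (by omega), if_pos (by omega)]
      obtain ⟨x, hx⟩ : ∃ x : ℕ, f = g + 1 + d + x := ⟨f - (g + 1 + d), by omega⟩
      have e7 : f + (i - 1) - (L + 1) = x := by omega
      have e8 : f + i - (L + 1) = x + 1 := by omega
      rw [e7, e8]
      obtain ⟨e, he⟩ := Nat.exists_eq_add_of_le hg1
      obtain ⟨r, hr⟩ := Nat.exists_eq_add_of_le hd1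
      obtain ⟨q', hq'⟩ : ∃ q' : ℕ, n = 1 + d + x + q' := ⟨n - (1 + d + x), by omega⟩
      have hxz : (f : ℤ) = g + 1 + d + x := by rw [hx]; push_cast; ring
      have base := J2_bm (e := e) (r := r) (x := x) (q := q') (τ := τ) (ν := ν) (L := L) (V := V)
          (t := t) (g := g) (d := d) (n := n) (f := f) (by rw [he]; push_cast; ring)
          (by rw [hr]; push_cast; ring) hxz
          (by rw [hq']; push_cast; ring) hgz hνz hτz
      have e12 : (f : ℤ) - d - g - 1 = x := by linarith
      rw [e12] at base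
      rcases Nat.lt_or_ge (s + t) V with h1 | h1
      · rw [Nat.sub_eq_zero_of_le (show s + t + 1 ≤ V from h1)]
        push_cast
        rw [add_zero, add_zero, ← add_assoc]
        refine G1_mono_X hL1 hh0 ?_ base
        have : (s : ℤ) + t + 1 ≤ V := by exact_mod_cast h1
        linarith
      · obtain ⟨δ, hδ⟩ := Nat.exists_eq_add_of_le h1
        have e9 : s + t + 1 - V = δ + 1 := by omega
        rw [e9]
        have := G1_shift_nonneg (δ := ((δ : ℤ) + 1)) hL1 (by positivity) hh0 hh base
        have e10 : (f : ℤ) * V + s = (f + 1) * V - t - 1 + (δ + 1) := by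
          have : (s : ℤ) + t = V + δ := by exact_mod_cast hδ
          linarith
        rw [e10]
        push_cast
        have e11 : (f : ℤ) * t + (x + 1) + (δ + 1) = f * t + x + 1 + (δ + 1) := by ring
        rw [e11]
        exact this
  · -- i ≥ η
    obtain ⟨b, hb⟩ := Nat.exists_eq_add_of_le hin
    have e1 : i - (n + 1) = b := by omega
    have e2 : min i n = n := by omega
    have e3 : (i : ℤ) = n + 1 + b := by omega
    rw [e1, e2]
    have e5 : (n : ℤ) * (t - 1) + (n : ℤ) = n * t := by ring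
    have e6 : (t : ℤ) * (L + 1) + i - (n + 1) = t * (L + 1) + b := by rw [e3]; ring
    rw [e5, e6]
    rw [e6] at hh0 hh
    rcases lt_trichotomy (f + i) (L + 1) with hfi | hfi | hfi
    · -- case a
      rw [if_neg (by omega), if_neg (by omega)]
      have e7 : f + (i - 1) - (L + 1) = 0 := by omega
      have e8 : f + i - (L + 1) = 0 := by omega
      rw [e7, e8]
      simp only [add_zero]
      obtain ⟨e, he⟩ : ∃ e : ℕ, g = f + b + 1 + e := ⟨g - (f + b + 1), by omega⟩
      have base := J2_ap (f := f) (b := b) (e := e) (n := n) (τ := τ) (ν := ν) (L := L)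
        (V := V) (t := t) (g := g) (by rw [he]; push_cast; ring) hgz hνz hτz
      rcases le_total (s + t) V with h1 | h1
      · rw [Nat.sub_eq_zero_of_le h1]
        push_cast
        rw [add_zero]
        refine G1_mono_X hL1 hh0 ?_ base
        have : (s : ℤ) + t ≤ V := by exact_mod_cast h1
        linarith
      · obtain ⟨δ, hδ⟩ := Nat.exists_eq_add_of_le h1
        have e9 : s + t - V = δ := by omega
        rw [e9]
        have := G1_shift_nonneg (δ := (δ : ℤ)) hL1 (by positivity) hh0 hh base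
        have e10 : (f : ℤ) * V + s = (f + 1) * V - t + δ := by
          have : (s : ℤ) + t = V + δ := by exact_mod_cast hδ
          linarith
        rw [e10]
        push_cast
        exact this
    · -- case c
      rw [if_neg (by omega), if_pos (by omega)]
      have e7 : f + (i - 1) - (L + 1) = 0 := by omega
      have e8 : f + i - (L + 1) = 0 := by omega
      rw [e7, e8]
      simp only [add_zero]
      have hgfb : g = f + b := by omega
      have hgfz : (g : ℤ) = f + b := by rw [hgfb]; push_cast; ring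
      rcases Nat.lt_or_ge (s + t) V with h1 | h1
      · have base := J2_cpt1 (f := f) (b := b) (n := n) (τ := τ) (ν := ν) (L := L) (V := V)
          (t := t) (g := g) hgfz (by omega) hgz hνz hτz
        rw [Nat.sub_eq_zero_of_le h1.le, Nat.sub_eq_zero_of_le (show s + t + 1 ≤ V from h1)]
        push_cast
        rw [add_zero]
        refine G1_mono_X hL1 hh0 ?_ base
        have : (s : ℤ) + t + 1 ≤ V := by exact_mod_cast h1
        linarith
      · have base := J2_cpt (f := f) (b := b) (n := n) (τ := τ) (ν := ν) (L := L) (V := V)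
          (t := t) (g := g) hgfz (by omega) hgz hνz hτz
        obtain ⟨δ, hδ⟩ := Nat.exists_eq_add_of_le h1
        have e9 : s + t - V = δ := by omega
        have e9' : s + t + 1 - V = δ + 1 := by omega
        rw [e9, e9']
        have := G1_shift_nonneg (δ := (δ : ℤ)) hL1 (by positivity) hh0 hh base
        have e10 : (f : ℤ) * V + s = (f + 1) * V - t + δ := by
          have : (s : ℤ) + t = V + δ := by exact_mod_cast hδ
          linarith
        rw [e10]
        push_cast
        have e11 : (f : ℤ) * t + (δ + 1) = f * t + 1 + δ := by ring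
        rw [e11]
        exact this
    · -- case b
      rw [if_pos (by omega), if_pos (by omega)]
      obtain ⟨m, hm⟩ : ∃ m : ℕ, f + b = g + 1 + m := ⟨f + b - (g + 1), by omega⟩
      have e7 : f + (i - 1) - (L + 1) = m := by omega
      have e8 : f + i - (L + 1) = m + 1 := by omega
      rw [e7, e8]
      have hmz : (f : ℤ) + b = g + 1 + m := by exact_mod_cast hm
      have e12 : (f : ℤ) + b - g - 1 = m := by linarith
      have base : 0 ≤ G1 L n V (f * t + m) (f * t + m + 1) ((g + 1) * t + b) (n * t)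
          (t * (L + 1) + b) ((f + 1) * V - t - 1) := by
        rcases Nat.eq_zero_or_pos b with hb0 | hb1
        · subst hb0
          obtain ⟨y, hy⟩ := Nat.exists_eq_add_of_le hg1
          obtain ⟨z, hz⟩ : ∃ z : ℕ, n = 1 + m + z := ⟨n - (1 + m), by omega⟩
          have := J2_bp2 (y := y) (x := m) (z := z) (τ := τ) (ν := ν) (L := L) (V := V) (t := t)
            (g := g) (n := n) (f := f) (by rw [hy]; push_cast; ring) (by push_cast at hmz; linarith)
            (by rw [hz]; push_cast; ring) hgz hνz hτz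
          push_cast at e12
          rw [e12] at this
          push_cast
          exact this
        · obtain ⟨y, hy⟩ : ∃ y : ℕ, g = b + y := ⟨g - b, by omega⟩
          obtain ⟨x, hx⟩ : ∃ x : ℕ, f = y + 1 + x := ⟨f - (y + 1), by omega⟩
          rcases Nat.lt_or_ge x n with hxn | hxn
          · obtain ⟨z, hz⟩ : ∃ z : ℕ, n = 1 + x + z := ⟨n - (1 + x), by omega⟩
            obtain ⟨β, hβ⟩ := Nat.exists_eq_add_of_le hb1
            have := J2_bp1 (y := y) (x := x) (z := z) (β := β) (τ := τ) (ν := ν) (L := L)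
              (V := V) (t := t) (g := g) (b := b) (n := n) (f := f)
              (by rw [hβ]; push_cast; ring) (by rw [hy]; push_cast; ring)
              (by rw [hx]; push_cast; ring) (by rw [hz]; push_cast; ring) hgz hνz hτz
            rw [e12] at this
            exact this
          · obtain ⟨w, hw⟩ := Nat.exists_eq_add_of_le hxn
            obtain ⟨z, hz⟩ : ∃ z : ℕ, b = 1 + w + z := ⟨b - (1 + w), by omega⟩
            have := J2_bp3 (n := n) (w := w) (z := z) (y := y) (τ := τ) (ν := ν) (L := L)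
              (V := V) (t := t) (g := g) (b := b) (f := f)
              (by rw [hz]; push_cast; ring) (by rw [hy]; push_cast; ring)
              (by rw [hx, hw]; push_cast; ring) hgz hνz hτz
            rw [e12] at this
            exact this
      rcases Nat.lt_or_ge (s + t) V with h1 | h1
      · rw [Nat.sub_eq_zero_of_le (show s + t + 1 ≤ V from h1)]
        push_cast
        rw [add_zero, add_zero, ← add_assoc]
        refine G1_mono_X hL1 hh0 ?_ base
        have : (s : ℤ) + t + 1 ≤ V := by exact_mod_cast h1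
        linarith
      · obtain ⟨δ, hδ⟩ := Nat.exists_eq_add_of_le h1
        have e9 : s + t + 1 - V = δ + 1 := by omega
        rw [e9]
        have := G1_shift_nonneg (δ := ((δ : ℤ) + 1)) hL1 (by positivity) hh0 hh base
        have e10 : (f : ℤ) * V + s = (f + 1) * V - t - 1 + (δ + 1) := by
          have : (s : ℤ) + t = V + δ := by exact_mod_cast hδ
          linarith
        rw [e10]
        push_cast
        have e11 : (f : ℤ) * t + (m + 1) + (δ + 1) = f * t + m + 1 + (δ + 1) := by ring
        rw [e11]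
        exact this

/-- reduction to `c = L` -/
theorem J2_red {c L M0 A1 E hX : ℤ} (hc : 0 ≤ c) (hcL : c ≤ L) (hL : 0 < L) (hAE : E ≤ A1)
    (hX0 : 0 ≤ hX) (h : 0 ≤ L * ((M0 - L) * A1 + (L - 1) * E) - (L - 1) * hX) :
    0 ≤ c * ((M0 - c) * A1 + (c - 1) * E) - (c - 1) * hX := by
  have e : L * (c * ((M0 - c) * A1 + (c - 1) * E) - (c - 1) * hX) =
      c * (L * ((M0 - L) * A1 + (L - 1) * E) - (L - 1) * hX) +
        (L - c) * (c * L * (A1 - E) + hX) := by ring
  have h1 : 0 ≤ c * (L * ((M0 - L) * A1 + (L - 1) * E) - (L - 1) * hX) := mul_nonneg hc h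
  have h2 : 0 ≤ (L - c) * (c * L * (A1 - E) + hX) :=
    mul_nonneg (by linarith) (add_nonneg (mul_nonneg (mul_nonneg hc hL.le) (by linarith)) hX0)
  have h3 : 0 ≤ L * (c * ((M0 - c) * A1 + (c - 1) * E) - (c - 1) * hX) := by linarith
  exact nonneg_of_mul_nonneg_right h3 hL

/-- `J2` -/
theorem J2 {c η l V t i f s : ℕ} (hc : 2 ≤ c) (hcl : c + 1 ≤ l) (hη : 1 ≤ η) (hηl : η + 1 ≤ l)
    (hV : l ≤ V) (ht : 1 ≤ t) (hi : 1 ≤ i) (hil : i ≤ l) (htV : t * l + i + V ≤ l * V)
    (hf : f + 1 ≤ l) (hs : s + 1 ≤ V) :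
    0 ≤ ((c : ℤ) - 1) *
        (c * ((f * t + (f + i - l) + (s + t + (if l ≤ f + i then 1 else 0) - V) : ℕ) : ℤ) -
          ((t : ℤ) * l + i - η) * (f * V + s)) +
      c * ((l - 1) * V - η - c + 1) *
        (((f * t + (f + (i - 1) - l) + (s + t + (if l ≤ f + (i - 1) then 1 else 0) - V) : ℕ) : ℤ) +
          (((l : ℤ) - η + 1) * t + ((i - η : ℕ) : ℤ))) -
      c * (c - 1) * (((η : ℤ) - 1) * (t - 1) + ((min i (η - 1) : ℕ) : ℤ)) := by
  obtain ⟨L, rfl⟩ : ∃ L, l = L + 1 := ⟨l - 1, by omega⟩
  obtain ⟨n, rfl⟩ : ∃ n, η = n + 1 := ⟨η - 1, by omega⟩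
  have htV' : t * (L + 1) + i ≤ L * V := by
    have : (L + 1) * V = L * V + V := by ring
    omega
  have key := J2_L (n := n) (L := L) (V := V) (t := t) (i := i) (f := f) (s := s) (by omega) hV ht
    hi hil htV' (by omega) hs
  have hAE : (f * t + (f + i - (L + 1)) + (s + t + (if L + 1 ≤ f + i then 1 else 0) - V)) ≤
      (f * t + (f + (i - 1) - (L + 1)) +
        (s + t + (if L + 1 ≤ f + (i - 1) then 1 else 0) - V)) + t := by
    split_ifs <;> omega
  have hn : n + 1 - 1 = n := by omega
  rw [hn]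
  generalize (f * t + (f + i - (L + 1)) + (s + t + (if L + 1 ≤ f + i then 1 else 0) - V)) = oζ at *
  generalize (f * t + (f + (i - 1) - (L + 1)) +
        (s + t + (if L + 1 ≤ f + (i - 1) then 1 else 0) - V)) = oz at *
  have hLn : (0 : ℤ) ≤ (L : ℤ) - n := by omega
  have ht1 : (1 : ℤ) ≤ t := by exact_mod_cast ht
  have hAEz : (oζ : ℤ) ≤ oz + t := by exact_mod_cast hAE
  have hhX : (0 : ℤ) ≤ ((t : ℤ) * (L + 1) + i - (n + 1)) * (f * V + s) := by
    apply mul_nonneg _ (by positivity)
    have h1 : (L : ℤ) + 1 ≤ t * (L + 1) := by nlinarith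
    have h2 : (1 : ℤ) ≤ i := by exact_mod_cast hi
    linarith
  have hfin := J2_red (c := c) (L := L) (M0 := L * V - n)
    (A1 := oz + (((L : ℤ) - n + 1) * t + ((i - (n + 1) : ℕ) : ℤ)))
    (E := oζ - ((n : ℤ) * (t - 1) + ((min i n : ℕ) : ℤ)))
    (hX := ((t : ℤ) * (L + 1) + i - (n + 1)) * (f * V + s)) (by positivity) (by omega)
    (by omega) (by
      have h1 : (0 : ℤ) ≤ (n : ℤ) * (t - 1) := mul_nonneg (by positivity) (by linarith)
      have h2 : (0 : ℤ) ≤ ((L : ℤ) - n) * t := mul_nonneg hLn (by linarith)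
      have h3 : (0 : ℤ) ≤ ((min i n : ℕ) : ℤ) := by positivity
      have h4 : (0 : ℤ) ≤ ((i - (n + 1) : ℕ) : ℤ) := by positivity
      linarith) hhX (by
      unfold G1 at key
      linarith)
  push_cast at hfin ⊢
  linarith

end DKWF
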