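import Mathlib

/-!
The polynomial inequalities behind `J2` (levels `ζ > l`), after the reduction to `c = L = l - 1`.
-/

namespace DKWF

/-- the expression of `J2` for `c = L` -/
def G1 (L n V oz oζ be al h X : ℤ) : ℤ :=
  L * (L * (V - 1) - n) * (oz + be) + L * (L - 1) * (oζ - al) - (L - 1) * h * X

set_option maxRecDepth 20000

theorem J2_ap {f b e n τ ν : ℕ} {L V t g : ℤ} (hg : g = f + b + 1 + e) (hL : L = g + n)
    (hV : V = L + 1 + ν) (ht : t = 1 + τ) :
    0 ≤ G1 L n V (f * t) (f * t) ((g + 1) * t + b) (n * t) (t * (L + 1) + b)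
      ((f + 1) * V - t) := by
  subst ht hV hL hg
  unfold G1
  ring_nf
  positivity

theorem J2_am1 {f e r q τ ν : ℕ} {L V t g d n : ℤ} (hg : g = f + 1 + e) (hd : d = 1 + r)
    (hn : n = d + q) (hL : L = g + n) (hV : V = L + 1 + ν) (ht : t = 1 + τ) :
    0 ≤ G1 L n V (f * t) (f * t) ((g + 1) * t) (n * t + 1 - d) (t * (L + 1) - d)
      ((f + 1) * V - t) := by
  subst ht hV hL hn hd hg
  unfold G1
  ring_nf
  positivity

theorem J2_am2 {e x r q τ ν : ℕ} {L V t g d n f : ℤ} (hg : g = 1 + e) (hf : f = g + x)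
    (hd : d = 1 + x + r) (hn : n = d + q) (hL : L = g + n) (hV : V = L + 1 + ν)
    (ht : t = 1 + τ) :
    0 ≤ G1 L n V (f * t) (f * t) ((g + 1) * t) (n * t + 1 - d) (t * (L + 1) - d)
      ((f + 1) * V - t) := by
  subst ht hV hL hn hd hf hg
  unfold G1
  rcases le_total τ x with h1 | h1
  · obtain ⟨y, rfl⟩ := Nat.exists_eq_add_of_le h1
    push_cast
    ring_nf
    positivity
  · obtain ⟨y, rfl⟩ := Nat.exists_eq_add_of_le h1
    rcases le_total y r with h2 | h2
    · obtain ⟨w, rfl⟩ := Nat.exists_eq_add_of_le h2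
      push_cast
      ring_nf
      positivity
    · obtain ⟨w, rfl⟩ := Nat.exists_eq_add_of_le h2
      push_cast
      ring_nf
      positivity

theorem J2_bp1 {y x z β τ ν : ℕ} {L V t g b n f : ℤ} (hb : b = 1 + β) (hg : g = b + y)
    (hf : f = y + 1 + x) (hn : n = 1 + x + z) (hL : L = g + n) (hV : V = L + 1 + ν)
    (ht : t = 1 + τ) :
    0 ≤ G1 L n V (f * t + (f + b - g - 1)) (f * t + (f + b - g - 1) + 1) ((g + 1) * t + b) (n * t)
      (t * (L + 1) + b) ((f + 1) * V - t - 1) := by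
  subst ht hV hL hn hf hg hb
  unfold G1
  rcases le_total τ x with h1 | h1
  · obtain ⟨w, rfl⟩ := Nat.exists_eq_add_of_le h1
    push_cast
    ring_nf
    positivity
  · obtain ⟨w, rfl⟩ := Nat.exists_eq_add_of_le h1
    push_cast
    ring_nf
    positivity

theorem J2_bp2 {y x z τ ν : ℕ} {L V t g n f : ℤ} (hg : g = 1 + y)
    (hf : f = g + 1 + x) (hn : n = 1 + x + z) (hL : L = g + n) (hV : V = L + 1 + ν)
    (ht : t = 1 + τ) :
    0 ≤ G1 L n V (f * t + (f + 0 - g - 1)) (f * t + (f + 0 - g - 1) + 1) ((g + 1) * t + 0) (n * t)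
      (t * (L + 1) + 0) ((f + 1) * V - t - 1) := by
  subst ht hV hL hn hf hg
  unfold G1
  rcases le_total τ x with h1 | h1
  · obtain ⟨w, rfl⟩ := Nat.exists_eq_add_of_le h1
    push_cast
    ring_nf
    positivity
  · obtain ⟨w, rfl⟩ := Nat.exists_eq_add_of_le h1
    push_cast
    ring_nf
    positivity

theorem J2_bp3 {n w z y τ ν : ℕ} {L V t g b f : ℤ} (hb : b = 1 + w + z) (hg : g = b + y)
    (hf : f = y + 1 + n + w) (hL : L = g + n) (hV : V = L + 1 + ν) (ht : t = 1 + τ) :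
    0 ≤ G1 L n V (f * t + (f + b - g - 1)) (f * t + (f + b - g - 1) + 1) ((g + 1) * t + b) (n * t)
      (t * (L + 1) + b) ((f + 1) * V - t - 1) := by
  subst ht hV hL hf hg hb
  unfold G1
  rcases le_total τ n with h1 | h1
  · obtain ⟨w, rfl⟩ := Nat.exists_eq_add_of_le h1
    push_cast
    ring_nf
    positivity
  · obtain ⟨w, rfl⟩ := Nat.exists_eq_add_of_le h1
    push_cast
    ring_nf
    positivity

theorem J2_bm {e r x q τ ν : ℕ} {L V t g d n f : ℤ} (hg : g = 1 + e) (hd : d = 1 + r)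
    (hf : f = g + 1 + d + x) (hn : n = 1 + d + x + q) (hL : L = g + n) (hV : V = L + 1 + ν)
    (ht : t = 1 + τ) :
    0 ≤ G1 L n V (f * t + (f - d - g - 1)) (f * t + (f - d - g - 1) + 1) ((g + 1) * t)
      (n * t + 1 - d) (t * (L + 1) - d) ((f + 1) * V - t - 1) := by
  subst ht hV hL hn hf hd hg
  unfold G1
  rcases le_total τ r with h1 | h1
  · obtain ⟨w, rfl⟩ := Nat.exists_eq_add_of_le h1
    push_cast
    ring_nf
    positivity
  · obtain ⟨w, rfl⟩ := Nat.exists_eq_add_of_le h1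
    rcases le_total w x with h2 | h2
    · obtain ⟨u, rfl⟩ := Nat.exists_eq_add_of_le h2
      push_cast
      ring_nf
      positivity
    · obtain ⟨u, rfl⟩ := Nat.exists_eq_add_of_le h2
      rcases Nat.eq_zero_or_pos u with rfl | h3
      · push_cast
        ring_nf
        positivity
      · obtain ⟨v, rfl⟩ := Nat.exists_eq_add_of_le h3
        push_cast
        ring_nf
        positivity

theorem J2_cpt {f b n τ ν : ℕ} {L V t g : ℤ} (hg : g = f + b) (hfb : 1 ≤ f + b) (hL : L = g + n)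
    (hV : V = L + 1 + ν) (ht : t = 1 + τ) :
    0 ≤ G1 L n V (f * t) (f * t + 1) ((g + 1) * t + b) (n * t) (t * (L + 1) + b)
      ((f + 1) * V - t) := by
  subst ht hV hL hg
  unfold G1
  rcases Nat.eq_zero_or_pos b with rfl | h3
  · obtain ⟨v, rfl⟩ := Nat.exists_eq_add_of_le (show 1 ≤ f by omega)
    push_cast
    ring_nf
    positivity
  · obtain ⟨v, rfl⟩ := Nat.exists_eq_add_of_le h3
    push_cast
    ring_nf
    positivity

theorem J2_cpt1 {f b n τ ν : ℕ} {L V t g : ℤ} (hg : g = f + b) (hfb : 1 ≤ f + b)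
    (hL : L = g + n) (hV : V = L + 1 + ν) (ht : t = 1 + τ) :
    0 ≤ G1 L n V (f * t) (f * t) ((g + 1) * t + b) (n * t) (t * (L + 1) + b)
      ((f + 1) * V - t - 1) := by
  subst ht hV hL hg
  unfold G1
  rcases Nat.eq_zero_or_pos b with rfl | h3
  · obtain ⟨v, rfl⟩ := Nat.exists_eq_add_of_le (show 1 ≤ f by omega)
    push_cast
    ring_nf
    positivity
  · obtain ⟨v, rfl⟩ := Nat.exists_eq_add_of_le h3
    push_cast
    ring_nf
    positivity

theorem J2_cmt {e r q τ ν : ℕ} {L V t g d n f : ℤ} (hg : g = 1 + e) (hd : d = 1 + r)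
    (hf : f = g + d) (hn : n = d + q) (hL : L = g + n) (hV : V = L + 1 + ν) (ht : t = 1 + τ) :
    0 ≤ G1 L n V (f * t) (f * t + 1) ((g + 1) * t) (n * t + 1 - d) (t * (L + 1) - d)
      ((f + 1) * V - t) := by
  subst ht hV hL hn hf hd hg
  unfold G1
  rcases le_total τ r with h1 | h1
  · obtain ⟨w, rfl⟩ := Nat.exists_eq_add_of_le h1
    push_cast
    ring_nf
    positivity
  · obtain ⟨w, rfl⟩ := Nat.exists_eq_add_of_le h1
    rcases Nat.eq_zero_or_pos w with rfl | h3
    · push_cast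
      ring_nf
      positivity
    · obtain ⟨v, rfl⟩ := Nat.exists_eq_add_of_le h3
      push_cast
      ring_nf
      positivity

theorem J2_cmt1 {e r q τ ν : ℕ} {L V t g d n f : ℤ} (hg : g = 1 + e) (hd : d = 1 + r)
    (hf : f = g + d) (hn : n = d + q) (hL : L = g + n) (hV : V = L + 1 + ν) (ht : t = 1 + τ) :
    0 ≤ G1 L n V (f * t) (f * t) ((g + 1) * t) (n * t + 1 - d) (t * (L + 1) - d)
      ((f + 1) * V - t - 1) := by
  subst ht hV hL hn hf hd hg
  unfold G1
  rcases le_total τ r with h1 | h1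
  · obtain ⟨w, rfl⟩ := Nat.exists_eq_add_of_le h1
    push_cast
    ring_nf
    positivity
  · obtain ⟨w, rfl⟩ := Nat.exists_eq_add_of_le h1
    push_cast
    ring_nf
    positivity

end DKWF
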