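import Pool.Agent.Lib.MP_f05b2f_co.C.Kf
import Pool.Agent.Lib.MP_f05b2f_co.C.IneqA
import Pool.Agent.Lib.MP_f05b2f_co.C.IneqJ2

/-!
The bound for one slice of the first kind and for all slices with first level `c`, at a level
`z + 1` of the complement, `η ≤ z`.
-/

namespace DKWF

open Finset

/-- gain of a row of a slice, levels above `l` -/
theorem alpha_ge {l η t i' i n : ℕ} (hn : η = n + 1) (ht : 1 ≤ t) (hi' : i' ≤ l)
    (hi : l < i + η) (hil : i ≤ l) :
    -((n : ℤ) * (t - 1) + ((min i' n : ℕ) : ℤ)) ≤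
      ((i * t + (i + i' - l) : ℕ) : ℤ) + l - i - (t * l + i') := by
  obtain ⟨y, hy⟩ := Nat.exists_eq_add_of_le hil
  have hyn : y ≤ n := by omega
  have e : (l : ℤ) = i + y := by exact_mod_cast hy
  have h1 : (y : ℤ) * (t - 1) ≤ n * (t - 1) := by
    apply mul_le_mul_of_nonneg_right (by exact_mod_cast hyn)
    have : (1 : ℤ) ≤ t := by exact_mod_cast ht
    linarith
  have h2 : (i' : ℤ) - ((i + i' - l : ℕ) : ℤ) ≤ ((min i' n : ℕ) : ℤ) := by omega
  push_cast
  rw [e]
  have h3 : (i : ℤ) * t + ((i + i' - (i + y) : ℕ) : ℤ) + (i + y) - i - (t * (i + y) + i') =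
    -(y * (t - 1)) - (i' - ((i + i' - (i + y) : ℕ) : ℤ)) := by ring
  subst hy
  push_cast at h2 h3 ⊢
  linarith

theorem beta_ge {l η t i' i n : ℕ} (hn : η = n + 1) (ht : 1 ≤ t) (hi1 : 1 ≤ i')
    (hi : l < i + η) :
    ((l : ℤ) - η + 1) * t + ((i' - η : ℕ) : ℤ) - 1 ≤
      ((i * t + (i + (i' - 1) - l) : ℕ) : ℤ) + l - η - i := by
  obtain ⟨y, hy⟩ := Nat.exists_eq_add_of_lt hi
  -- i + η = l + y + 1
  have e : (i : ℤ) = l - η + 1 + y := by omega
  have h1 : (y : ℤ) ≤ y * t := by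
    have : (1 : ℤ) ≤ t := by exact_mod_cast ht
    nlinarith [Int.natCast_nonneg y]
  have h2 : ((i' - η : ℕ) : ℤ) ≤ ((i + (i' - 1) - l : ℕ) : ℤ) := by omega
  push_cast
  have h3 : (i : ℤ) * t = (l - η + 1) * t + y * t := by rw [e]; ring
  linarith

theorem KB_nonneg {l η t i' n : ℕ} {c M : ℤ} (hn : η = n + 1) (ht : 1 ≤ t) (hη : η + 1 ≤ l)
    (hc : 1 ≤ c) (hM : (c - 1) * (l - 1) ≤ M) :
    0 ≤ (c - 1) * (-((n : ℤ) * (t - 1) + ((min i' n : ℕ) : ℤ))) +
      M * (((l : ℤ) - η + 1) * t + ((i' - η : ℕ) : ℤ) - 1) := by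
  have ht' : (1 : ℤ) ≤ t := by exact_mod_cast ht
  have hηl : (η : ℤ) + 1 ≤ l := by exact_mod_cast hη
  have hn' : (η : ℤ) = n + 1 := by exact_mod_cast hn
  have h1 : (t : ℤ) ≤ ((l : ℤ) - η + 1) * t + ((i' - η : ℕ) : ℤ) - 1 := by
    have : (2 : ℤ) * t ≤ ((l : ℤ) - η + 1) * t := by
      apply mul_le_mul_of_nonneg_right (by linarith) (by linarith)
    have h3 : (0 : ℤ) ≤ ((i' - η : ℕ) : ℤ) := Int.natCast_nonneg _
    linarith
  have hM0 : 0 ≤ M := by
    have : 0 ≤ (c - 1) * ((l : ℤ) - 1) := mul_nonneg (by linarith) (by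
      have := Int.natCast_nonneg η
      linarith)
    linarith
  have h2 : M * t ≤ M * (((l : ℤ) - η + 1) * t + ((i' - η : ℕ) : ℤ) - 1) :=
    mul_le_mul_of_nonneg_left h1 hM0
  have h3 : (c - 1) * (l - 1) * t ≤ M * t := mul_le_mul_of_nonneg_right hM (by linarith)
  have h4 : (n : ℤ) * (t - 1) + ((min i' n : ℕ) : ℤ) ≤ (l - 1) * t := by
    have h5 : ((min i' n : ℕ) : ℤ) ≤ n := by exact_mod_cast min_le_right _ _
    have h6 : (n : ℤ) * t ≤ (l - 1) * t :=
      mul_le_mul_of_nonneg_right (by linarith) (by linarith)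
    linarith
  have h5 : (c - 1) * ((n : ℤ) * (t - 1) + ((min i' n : ℕ) : ℤ)) ≤ (c - 1) * ((l - 1) * t) :=
    mul_le_mul_of_nonneg_left h4 (by linarith)
  linarith

/-- from one period to all -/
theorem all_of_period {ls : List ℕ} (h : Pos ls) {z : ℕ} (hz : z + 1 ≤ ls.prod) {c1 c h' M E : ℤ}
    (hk : 0 ≤ c1 * (c * (z + 1) - h' * ls.prod) + M * z)
    (hX : ∀ X < ls.prod, 0 ≤ c1 * (c * Ov ls (z + 1) X - h' * X) + M * Ov ls z X + E) (Y : ℕ) :
    0 ≤ c1 * (c * Ov ls (z + 1) Y - h' * Y) + M * Ov ls z Y + E := by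
  have hN := h.prod_pos
  have e : Y = Y / ls.prod * ls.prod + Y % ls.prod := by
    rw [mul_comm]; exact (Nat.div_add_mod Y ls.prod).symm
  have h1 := hX (Y % ls.prod) (Nat.mod_lt _ hN)
  set k := Y / ls.prod
  set X := Y % ls.prod
  rw [e, Ov_period h hz, Ov_period h (by omega)]
  simp only [Nat.cast_add, Nat.cast_mul, Nat.cast_one]
  have h2 : 0 ≤ (k : ℤ) * (c1 * (c * (z + 1) - h' * ls.prod) + M * z) :=
    mul_nonneg (Int.natCast_nonneg _) hk
  linarith

theorem KB_exists {l c η z : ℕ} {ls : List ℕ} (h : Pos (l :: ls)) (hc : 2 ≤ c) (hcl : c + 1 ≤ l)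
    (hη : 1 ≤ η) (hηl : η + 1 ≤ l) (hV : l ≤ ls.prod) (hz : η ≤ z)
    (hzN : z + 1 + ls.prod ≤ l * ls.prod) :
    ∃ KB : ℤ, 0 ≤ KB ∧
      (∀ i : ℕ, l < i + η → i ≤ l →
        KB ≤ ((c : ℤ) - 1) * (Ov (l :: ls) (z + 1) (i * ls.prod) + l - i - (z + 1)) +
          ((l - 1) * ls.prod - η - c + 1) * (Ov (l :: ls) z (i * ls.prod) + l - η - i)) ∧
      ∀ Y : ℕ, 0 ≤ ((c : ℤ) - 1) * (c * Ov (l :: ls) (z + 1) Y - (z + 1 - η) * Y) +
        c * ((l - 1) * ls.prod - η - c + 1) * (Ov (l :: ls) z Y + 1) + c * KB := by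
  set V := ls.prod with hVd
  have h' := Pos.cons_iff.1 h
  have hp : (l :: ls).prod = l * V := List.prod_cons
  have hVpos : 0 < V := h'.2.prod_pos
  have hkap := kappa (V := V) (z := z) (by omega : 1 ≤ c) hcl hη hηl hV hzN
  -- M ≥ (c-1)(l-1)
  have hM : ((c : ℤ) - 1) * (l - 1) ≤ (l - 1) * V - η - c + 1 := by
    have e1 : (c : ℤ) + 1 ≤ l := by exact_mod_cast hcl
    have e2 : (l : ℤ) ≤ V := by exact_mod_cast hV
    have e3 : (η : ℤ) + 1 ≤ l := by exact_mod_cast hηl
    have e4 : (2 : ℤ) ≤ c := by exact_mod_cast hc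
    nlinarith
  have hM0 : (0 : ℤ) ≤ (l - 1) * V - η - c + 1 := by
    have e1 : (2 : ℤ) ≤ c := by exact_mod_cast hc
    have e2 : (1 : ℤ) ≤ l := by exact_mod_cast h'.1
    have : (0 : ℤ) ≤ ((c : ℤ) - 1) * (l - 1) := mul_nonneg (by linarith) (by linarith)
    linarith
  have hc0 : (0 : ℤ) ≤ (c : ℤ) - 1 := by
    have : (1 : ℤ) ≤ c := by exact_mod_cast (by omega : 1 ≤ c)
    linarith
  have hcM0 : (0 : ℤ) ≤ c * ((l - 1) * V - η - c + 1) := mul_nonneg (Int.natCast_nonneg _) hM0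
  -- digits of X
  have hdig : ∀ X < (l :: ls).prod, ∃ f s, f + 1 ≤ l ∧ s + 1 ≤ V ∧ X = f * V + s := by
    intro X hX
    refine ⟨X / V, X % V, ?_, Nat.mod_lt _ hVpos, ?_⟩
    · have : X / V < l := by
        rw [Nat.div_lt_iff_lt_mul hVpos, ← hp]; exact hX
      omega
    · rw [mul_comm]; exact (Nat.div_add_mod X V).symm
  rcases Nat.lt_or_ge z l with hzl | hzl
  · -- levels at most l
    refine ⟨((l - 1) * V - η - c + 1) * (z - η), ?_, ?_, ?_⟩
    · apply mul_nonneg hM0
      have : (η : ℤ) ≤ z := by exact_mod_cast hz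
      linarith
    · intro i hi hil
      have r1 := Ov_rows h (t := 0) (i := z + 1) hil (by omega) (by
        rw [Nat.zero_mul, Nat.zero_add]; rw [hVd] at hzN; omega)
      have r2 := Ov_rows h (t := 0) (i := z) hil (by omega) (by
        rw [Nat.zero_mul, Nat.zero_add]; rw [hVd] at hzN; omega)
      simp only [Nat.mul_zero, Nat.zero_mul, Nat.zero_add] at r1 r2
      rw [← hVd] at r1 r2
      have r3 : (0 : ℤ) ≤ Ov (l :: ls) (z + 1) (i * V) + l - i - (z + 1) := by omega
      have r4 : (z : ℤ) - η ≤ Ov (l :: ls) z (i * V) + l - η - i := by omega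
      have r5 := mul_nonneg hc0 r3
      have r6 := mul_le_mul_of_nonneg_left r4 hM0
      linarith
    · intro Y
      have key := all_of_period h (z := z) (by rw [hp]; omega) (c1 := (c : ℤ) - 1) (c := c)
        (h' := (z : ℤ) + 1 - η) (M := c * ((l - 1) * V - η - c + 1))
        (E := c * ((l - 1) * V - η - c + 1) * ((z : ℤ) + 1 - η)) (by
          rw [hp]; push_cast; linarith) (by
          intro X hX
          obtain ⟨f, s, hf, hs, rfl⟩ := hdig X hX
          have j1 := J1 hc hcl hη hz (by omega) hV hf hs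
          have r1 := Ov_lower h (t := 0) (i := z + 1) (f := f) (s := s) hf (by omega) (by omega)
            (by rw [Nat.zero_mul, Nat.zero_add]; rw [hVd] at hzN; omega)
          have r2 := Ov_lower h (t := 0) (i := z) (f := f) (s := s) hf (by omega) (by omega)
            (by rw [Nat.zero_mul, Nat.zero_add]; rw [hVd] at hzN; omega)
          simp only [Nat.mul_zero, Nat.zero_mul, Nat.zero_add] at r1 r2
          rw [← hVd] at r1 r2
          have r3 : ((f + z + 1 - l : ℕ) : ℤ) ≤ Ov (l :: ls) (z + 1) (f * V + s) := by omega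
          have r4 : ((f + z - l : ℕ) : ℤ) ≤ Ov (l :: ls) z (f * V + s) := by omega
          have r5 := mul_le_mul_of_nonneg_left r3 (mul_nonneg hc0 (Int.natCast_nonneg c))
          have r6 := mul_le_mul_of_nonneg_left r4 hcM0
          push_cast at r5 r6 ⊢
          linarith) Y
      linarith
  · -- levels above l
    obtain ⟨n, hn⟩ : ∃ n, η = n + 1 := ⟨η - 1, by omega⟩
    obtain ⟨t, i', ht, hi1, hil', hz1⟩ : ∃ t i', 1 ≤ t ∧ 1 ≤ i' ∧ i' ≤ l ∧ z + 1 = t * l + i' := by
      refine ⟨z / l, z % l + 1, ?_, by omega, Nat.mod_lt _ h'.1, ?_⟩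
      · exact Nat.div_pos hzl h'.1
      · rw [mul_comm]
        have := Nat.div_add_mod z l
        omega
    have hz2 : z = t * l + (i' - 1) := by omega
    have hm1 : t * l + i' ≤ l * ls.prod := by rw [← hz1]; rw [hVd] at hzN; omega
    have hm2 : t * l + (i' - 1) ≤ l * ls.prod := by omega
    refine ⟨((c : ℤ) - 1) * (-((n : ℤ) * (t - 1) + ((min i' n : ℕ) : ℤ))) +
      ((l - 1) * V - η - c + 1) * (((l : ℤ) - η + 1) * t + ((i' - η : ℕ) : ℤ) - 1), ?_, ?_, ?_⟩
    · exact KB_nonneg hn ht hηl (by linarith) hM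
    · intro i hi hil
      have r1 := Ov_rows h (t := t) (i := i') hil hil' hm1
      have r2 := Ov_rows h (t := t) (i := i' - 1) hil (by omega) hm2
      rw [← hz1, ← hVd] at r1
      rw [← hz2, ← hVd] at r2
      have a1 := alpha_ge hn ht hil' hi hil
      have b1 := beta_ge hn ht hi1 hi
      have e1 : (z : ℤ) + 1 = t * l + i' := by exact_mod_cast hz1
      have r3 : -((n : ℤ) * (t - 1) + ((min i' n : ℕ) : ℤ)) ≤
          Ov (l :: ls) (z + 1) (i * V) + l - i - (z + 1) := by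
        rw [e1]
        have : ((i * t + (i + i' - l) : ℕ) : ℤ) ≤ Ov (l :: ls) (z + 1) (i * V) := by
          exact_mod_cast r1
        linarith
      have r4 : ((l : ℤ) - η + 1) * t + ((i' - η : ℕ) : ℤ) - 1 ≤
          Ov (l :: ls) z (i * V) + l - η - i := by
        have : ((i * t + (i + (i' - 1) - l) : ℕ) : ℤ) ≤ Ov (l :: ls) z (i * V) := by
          exact_mod_cast r2
        linarith
      have r5 := mul_le_mul_of_nonneg_left r3 hc0
      have r6 := mul_le_mul_of_nonneg_left r4 hM0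
      linarith
    · intro Y
      have key := all_of_period h (z := z) (by rw [hp]; omega) (c1 := (c : ℤ) - 1) (c := c)
        (h' := (z : ℤ) + 1 - η) (M := c * ((l - 1) * V - η - c + 1))
        (E := c * ((l - 1) * V - η - c + 1) * (((l : ℤ) - η + 1) * t + ((i' - η : ℕ) : ℤ)) -
          c * (c - 1) * (((n : ℤ)) * (t - 1) + ((min i' n : ℕ) : ℤ))) (by
          rw [hp]; push_cast; linarith) (by
          intro X hX
          obtain ⟨f, s, hf, hs, rfl⟩ := hdig X hX
          have j2 := J2 hc hcl hη hηl hV ht hi1 hil' (by rw [← hz1]; exact hzN) hf hs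
          have r1 := Ov_lower h (t := t) (i := i') (f := f) (s := s) hf (by omega) hil' hm1
          have r2 := Ov_lower h (t := t) (i := i' - 1) (f := f) (s := s) hf (by omega) (by omega)
            hm2
          rw [← hz1, ← hVd] at r1
          rw [← hz2, ← hVd] at r2
          have e1 : (t : ℤ) * l + i' = z + 1 := by exact_mod_cast hz1.symm
          have e2 : η - 1 = n := by omega
          have e3 : (η : ℤ) - 1 = n := by omega
          rw [e1, e2, e3] at j2
          generalize (f * t + (f + i' - l) + (s + t + (if l ≤ f + i' then 1 else 0) - V)) = oζ at *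
          generalize (f * t + (f + (i' - 1) - l) +
            (s + t + (if l ≤ f + (i' - 1) then 1 else 0) - V)) = oz at *
          have r3 : (oζ : ℤ) ≤ Ov (l :: ls) (z + 1) (f * V + s) := by exact_mod_cast r1
          have r4 : (oz : ℤ) ≤ Ov (l :: ls) z (f * V + s) := by exact_mod_cast r2
          have r5 := mul_le_mul_of_nonneg_left r3 (mul_nonneg hc0 (Int.natCast_nonneg c))
          have r6 := mul_le_mul_of_nonneg_left r4 hcM0
          push_cast at r5 r6 j2 ⊢
          linarith) Y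
      push_cast at key ⊢
      linarith

end DKWF
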