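import Pool.Agent.Lib.MP_f05b2f_co.F.KTwo

/-!
The order with `K` first.  `Ov ls ζ Y` is the number of elements among the first `Y` of the first
order (read periodically) which are among the last `ζ` of the second order.  The node with `K`
first is at most `S - Ov ls ζ S + (B - K * (N - ζ))` for every `ζ`.
-/

namespace DKWF

open Finset

/-- overlap of the first `Y` elements of the first order (periodically) with the last `ζ`
elements of the second order -/
def Ov (ls : List ℕ) (ζ Y : ℕ) : ℕ := Y - H ls.reverse (ls.prod - ζ) Y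

theorem Ov_zero (ls : List ℕ) (ζ : ℕ) : Ov ls ζ 0 = 0 := by simp [Ov]

theorem Ov_add_H (ls : List ℕ) (ζ Y : ℕ) : Ov ls ζ Y + H ls.reverse (ls.prod - ζ) Y = Y := by
  have := H_le_right ls.reverse (ls.prod - ζ) Y
  unfold Ov
  omega

theorem Ov_super {ls : List ℕ} (h : Pos ls) (ζ Y Y' : ℕ) :
    Ov ls ζ Y + Ov ls ζ Y' ≤ Ov ls ζ (Y + Y') := by
  have h1 := Ov_add_H ls ζ Y
  have h2 := Ov_add_H ls ζ Y'
  have h3 := Ov_add_H ls ζ (Y + Y')
  have h4 := H_subadd h.reverse (ls.prod - ζ) Y Y'
  omega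

theorem Ov_period {ls : List ℕ} (h : Pos ls) {ζ : ℕ} (hζ : ζ ≤ ls.prod) (k X : ℕ) :
    Ov ls ζ (k * ls.prod + X) = k * ζ + Ov ls ζ X := by
  have h1 := Ov_add_H ls ζ (k * ls.prod + X)
  have h2 := Ov_add_H ls ζ X
  have h3 := H_period h.reverse (a := ls.prod - ζ) (by rw [prod_reverse]; omega) k X
  rw [prod_reverse] at h3
  rw [h3] at h1
  have h4 : k * ls.prod = k * ζ + k * (ls.prod - ζ) := by
    rw [← Nat.mul_add, Nat.add_sub_cancel' hζ]
  omega

theorem Ov_mono_right {ls : List ℕ} (h : Pos ls) (ζ : ℕ) {Y Y' : ℕ} (hY : Y ≤ Y') :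
    Ov ls ζ Y ≤ Ov ls ζ Y' := by
  obtain ⟨d, rfl⟩ := Nat.exists_eq_add_of_le hY
  have := Ov_super h ζ Y d
  omega

theorem Ov_eq {ls : List ℕ} (h : Pos ls) {ζ X : ℕ} (hX : X ≤ ls.prod) :
    Ov ls ζ X + H ls X (ls.prod - ζ) = X := by
  rw [H_comm h hX (Nat.sub_le _ _)]
  exact Ov_add_H ls ζ X

theorem Ov_prod {ls : List ℕ} (h : Pos ls) {ζ : ℕ} (hζ : ζ ≤ ls.prod) : Ov ls ζ ls.prod = ζ := by
  have := Ov_period h hζ 1 0
  rw [Ov_zero] at this
  simpa using this

/-- superadditivity for sums -/
theorem Ov_sum {ls : List ℕ} (h : Pos ls) (ζ : ℕ) (f : ℕ → ℕ) (n : ℕ) :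
    ∑ z ∈ range n, Ov ls ζ (f z) ≤ Ov ls ζ (∑ z ∈ range n, f z) := by
  induction n with
  | zero => simp
  | succ n ih =>
    rw [sum_range_succ, sum_range_succ]
    have := Ov_super h ζ (∑ z ∈ range n, f z) (f n)
    omega

theorem Ov_mul {ls : List ℕ} (h : Pos ls) (ζ n Y : ℕ) :
    n * Ov ls ζ Y ≤ Ov ls ζ (n * Y) := by
  have := Ov_sum h ζ (fun _ => Y) n
  simpa using this

/-- the lower bound for the overlap -/
theorem Ov_lower {l : ℕ} {ls : List ℕ} (h : Pos (l :: ls)) {t i f s : ℕ} (hf : f < l)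
    (hs : s ≤ ls.prod) (hi : i ≤ l) (hζ : t * l + i ≤ l * ls.prod) :
    f * t + (f + i - l) + (s + t + (if l ≤ f + i then 1 else 0) - ls.prod) ≤
      Ov (l :: ls) (t * l + i) (f * ls.prod + s) := by
  have h' := Pos.cons_iff.1 h
  have hl : 0 < l := h'.1
  have hp : (l :: ls).prod = l * ls.prod := List.prod_cons
  have hX : f * ls.prod + s ≤ (l :: ls).prod := by
    rw [hp]
    have : (f + 1) * ls.prod ≤ l * ls.prod := Nat.mul_le_mul_right _ hf
    rw [Nat.succ_mul] at this
    omega
  have h1 := Ov_eq h (ζ := t * l + i) hX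
  have ht : t ≤ ls.prod := by
    by_contra hcon
    have : (ls.prod + 1) * l ≤ t * l := Nat.mul_le_mul_right _ (by omega)
    rw [Nat.succ_mul, mul_comm ls.prod l] at this
    omega
  rw [hp] at h1
  rcases Nat.eq_zero_or_pos i with rfl | hi0
  · obtain ⟨c, hc⟩ := Nat.exists_eq_add_of_le ht
    have e1 : l * ls.prod - (t * l + 0) = l * c + 0 := by
      rw [hc, Nat.mul_add, mul_comm t l]; omega
    rw [e1, H_step h'.2 hf hs hl] at h1
    have h2 := H_le_right ls s (c + if f < 0 then 1 else 0)
    have h3 := H_le_left h'.2 s (b := c + if f < 0 then 1 else 0) (by simp; omega)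
    have e2 : f * ls.prod = f * t + f * c := by rw [hc, Nat.mul_add]
    simp only [Nat.not_lt_zero, if_false, add_zero] at h1 h2 h3
    rw [if_neg (by omega)]
    have h4 : min f 0 = 0 := by simp
    rw [h4] at h1
    simp only [add_zero] at h1 ⊢
    omega
  · have ht2 : t + 1 ≤ ls.prod := by
      by_contra hcon
      have : t = ls.prod := by omega
      rw [this, mul_comm ls.prod l] at hζ
      omega
    obtain ⟨c, hc⟩ := Nat.exists_eq_add_of_le ht2
    have e1 : l * ls.prod - (t * l + i) = l * c + (l - i) := by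
      have : l * ls.prod = t * l + l + l * c := by rw [hc]; ring
      omega
    rw [e1, H_step h'.2 hf hs (by omega)] at h1
    have h2 := H_le_right ls s (c + if f < l - i then 1 else 0)
    have h3 := H_le_left h'.2 s (b := c + if f < l - i then 1 else 0) (by split_ifs <;> omega)
    have e2 : f * ls.prod = f * t + f + f * c := by rw [hc]; ring
    by_cases hfi : l ≤ f + i
    · rw [if_pos hfi]
      rw [if_neg (by omega)] at h1 h2 h3
      have h4 : min f (l - i) = l - i := by omega
      rw [h4] at h1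
      omega
    · rw [if_neg hfi]
      rw [if_pos (by omega)] at h1 h2 h3
      have h4 : min f (l - i) = f := by omega
      rw [h4] at h1
      omega

/-- whole first blocks -/
theorem Ov_rows {l : ℕ} {ls : List ℕ} (h : Pos (l :: ls)) {t i f : ℕ} (hf : f ≤ l)
    (hi : i ≤ l) (hζ : t * l + i ≤ l * ls.prod) :
    f * t + (f + i - l) ≤ Ov (l :: ls) (t * l + i) (f * ls.prod) := by
  rcases Nat.lt_or_ge f l with h1 | h1
  · have := Ov_lower h (t := t) (s := 0) h1 (Nat.zero_le _) hi hζ
    rw [add_zero] at this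
    omega
  · have h2 : f = l := le_antisymm hf h1
    subst h2
    have h3 : (f :: ls).prod = f * ls.prod := List.prod_cons
    rw [← h3, Ov_prod h (by rw [h3]; exact hζ), mul_comm t f]
    omega

/-- sum over the blocks of length `N` -/
theorem sum_blocks {ls : List ℕ} (h : Pos ls) {β : ℕ} (hβ : β ≤ ls.prod) (K : ℕ) :
    ∀ S, S ≤ K * ls.prod →
      ∑ z ∈ range K, H ls.reverse β (min (S - z * ls.prod) ls.prod) = H ls.reverse β S := by
  induction K with
  | zero =>
    intro S hS
    have : S = 0 := by omega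
    subst this
    simp [H_zero_right]
  | succ K ih =>
    intro S hS
    rw [sum_range_succ']
    have e1 : ∀ z ∈ range K, H ls.reverse β (min (S - (z + 1) * ls.prod) ls.prod) =
        H ls.reverse β (min (S - ls.prod - z * ls.prod) ls.prod) := by
      intro z _
      congr 2
      rw [Nat.succ_mul]
      omega
    rw [sum_congr rfl e1, ih (S - ls.prod) (by rw [Nat.succ_mul] at hS; omega)]
    rw [Nat.zero_mul, Nat.sub_zero]
    rcases le_total S ls.prod with h1 | h1
    · rw [Nat.sub_eq_zero_of_le h1, H_zero_right, min_eq_left h1, zero_add]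
    · rw [min_eq_right h1]
      have h2 := H_period h.reverse (a := β) (by rw [prod_reverse]; exact hβ) 1 (S - ls.prod)
      have h3 := H_prod h.reverse (a := β) (by rw [prod_reverse]; exact hβ)
      rw [prod_reverse] at h2 h3
      have h4 : ls.prod + (S - ls.prod) = S := Nat.add_sub_cancel' h1
      rw [one_mul, one_mul, h4] at h2
      rw [h3, h2]
      omega

/-- the node with `K` first, bounded by a constant level -/
theorem kfirst {ls : List ℕ} (h : Pos ls) {K S B β : ℕ} (hK : 0 < K) (hS : S ≤ K * ls.prod)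
    (hβ : β ≤ ls.prod) : H (K :: ls) S B ≤ H ls.reverse β S + (B - K * β) := by
  rw [H_cons hK, ← sum_blocks h hβ K S hS]
  have e1 : ∑ z ∈ range K, ((B + (K - 1 - z)) / K - β) ≤ B - K * β := by
    rcases le_total B (K * β) with h1 | h1
    · have : ∀ z ∈ range K, (B + (K - 1 - z)) / K - β = 0 := by
        intro z hz
        have h2 : (B + (K - 1 - z)) / K ≤ β := by
          rw [Nat.div_le_iff_le_mul_add_pred hK]
          omega
        omega
      rw [sum_congr rfl this]
      simp
    · have e2 : ∀ z ∈ range K, (B + (K - 1 - z)) / K = (B + (K - 1 - z)) / K - β + β := by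
        intro z hz
        have h2 : β ≤ (B + (K - 1 - z)) / K := by
          rw [Nat.le_div_iff_mul_le hK, mul_comm]
          omega
        omega
      have e3 := sum_ceil hK B
      rw [sum_congr rfl e2, sum_add_distrib, sum_const, card_range, smul_eq_mul] at e3
      omega
  refine le_trans ?_ (Nat.add_le_add_left e1 _)
  rw [← sum_add_distrib]
  apply sum_le_sum
  intro z hz
  rw [← H_comm h (min_le_right _ _) hβ, H_clip h]
  rcases le_total ((B + (K - 1 - z)) / K) β with h1 | h1
  · exact (H_mono_right _ _ h1).trans (Nat.le_add_right _ _)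
  · obtain ⟨d, hd⟩ := Nat.exists_eq_add_of_le h1
    rw [hd, Nat.add_sub_cancel_left]
    exact H_lip_right _ _ _ _

/-- the test for `K` first, in integers -/
theorem kfirst_test {ls : List ℕ} (h : Pos ls) {K S B D ζ : ℕ} (hK : 0 < K)
    (hS : S ≤ K * ls.prod) (hζ : ζ ≤ ls.prod) (h1 : (S : ℤ) - D ≤ Ov ls ζ S)
    (h2 : (S : ℤ) - D + B - K * (ls.prod - ζ) ≤ Ov ls ζ S) : H (K :: ls) S B ≤ D := by
  have h3 := kfirst h (B := B) hK hS (Nat.sub_le ls.prod ζ)
  have h4 := Ov_add_H ls ζ S
  refine h3.trans ?_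
  have h5 : ((ls.prod - ζ : ℕ) : ℤ) = ls.prod - ζ := by push_cast [hζ]; ring
  rcases le_total B (K * (ls.prod - ζ)) with h6 | h6
  · rw [Nat.sub_eq_zero_of_le h6]
    omega
  · zify [h6]
    rw [h5]
    zify at h4
    linarith

end DKWF
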